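import Mathlib

namespace H16.FI

open Function

variable {α β : Type} [Fintype α] [Fintype β]

/-- labelled copies of `F` in `G` -/
noncomputable def Cop (F : SimpleGraph α) (G : SimpleGraph β) : Finset (α → β) := by
  classical
  exact Finset.univ.filter (fun φ => Injective φ ∧ ∀ a b, F.Adj a b → G.Adj (φ a) (φ b))

/-- number of labelled copies whose image contains `v` -/
noncomputable def I (F : SimpleGraph α) (G : SimpleGraph β) (v : β) : ℕ := by
  classical
  exact ((Cop F G).filter (fun φ => ∃ a, φ a = v)).card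

/-- labelled copies containing `v`, not `u`, and using an edge from `v` to a non-neighbour of `u` -/
noncomputable def D (F : SimpleGraph α) (G : SimpleGraph β) (v u : β) : Finset (α → β) := by
  classical
  exact (Cop F G).filter (fun φ => (∀ a, φ a ≠ u) ∧ ∃ a b, F.Adj a b ∧ φ a = v ∧ ¬ G.Adj u (φ b))

lemma mem_Cop {F : SimpleGraph α} {G : SimpleGraph β} {φ : α → β} :
    φ ∈ Cop F G ↔ Injective φ ∧ ∀ a b, F.Adj a b → G.Adj (φ a) (φ b) := by
  classical
  simp [Cop]

lemma mem_D {F : SimpleGraph α} {G : SimpleGraph β} {v u : β} {φ : α → β} :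
    φ ∈ D F G v u ↔ φ ∈ Cop F G ∧ (∀ a, φ a ≠ u) ∧ ∃ a b, F.Adj a b ∧ φ a = v ∧ ¬ G.Adj u (φ b) := by
  classical
  simp [D]

/-- copies containing `v`, not `u`, all of whose edges at `v` go to neighbours of `u` -/
noncomputable def N0 (F : SimpleGraph α) (G : SimpleGraph β) (v u : β) : Finset (α → β) := by
  classical
  exact (Cop F G).filter (fun φ => (∃ a, φ a = v) ∧ (∀ a, φ a ≠ u) ∧
    ∀ a b, F.Adj a b → φ a = v → G.Adj u (φ b))

lemma mem_N0 {F : SimpleGraph α} {G : SimpleGraph β} {v u : β} {φ : α → β} :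
    φ ∈ N0 F G v u ↔ φ ∈ Cop F G ∧ (∃ a, φ a = v) ∧ (∀ a, φ a ≠ u) ∧
    ∀ a b, F.Adj a b → φ a = v → G.Adj u (φ b) := by
  classical
  simp [N0]

lemma N0_card_le (F : SimpleGraph α) (G : SimpleGraph β) (v u : β) :
    (N0 F G v u).card ≤ (N0 F G u v).card := by
  classical
  refine Finset.card_le_card_of_injOn (fun φ a => Equiv.swap u v (φ a)) ?_ ?_
  · intro φ hφ
    rw [Finset.mem_coe, mem_N0] at hφ
    rw [Finset.mem_coe, mem_N0]
    obtain ⟨hc, ⟨a0, ha0⟩, hu, hN⟩ := hφ
    rw [mem_Cop] at hc
    have huv : u ≠ v := by rintro rfl; exact hu a0 ha0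
    have key : ∀ a, φ a ≠ v → Equiv.swap u v (φ a) = φ a := fun a ha =>
      Equiv.swap_apply_of_ne_of_ne (hu a) ha
    refine ⟨?_, ⟨a0, ?_⟩, ?_, ?_⟩
    · rw [mem_Cop]
      refine ⟨(Equiv.swap u v).injective.comp hc.1, ?_⟩
      intro a b hab
      show G.Adj (Equiv.swap u v (φ a)) (Equiv.swap u v (φ b))
      by_cases ha : φ a = v
      · have hb : φ b ≠ v := fun h => hab.ne (hc.1 (ha.trans h.symm))
        rw [key b hb, ha, Equiv.swap_apply_right]
        exact hN a b hab ha
      · by_cases hb : φ b = v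
        · rw [key a ha, hb, Equiv.swap_apply_right]
          exact (hN b a hab.symm hb).symm
        · rw [key a ha, key b hb]
          exact hc.2 a b hab
    · show Equiv.swap u v (φ a0) = u
      rw [ha0, Equiv.swap_apply_right]
    · intro a h
      have h' : Equiv.swap u v (φ a) = v := h
      by_cases ha : φ a = v
      · rw [ha, Equiv.swap_apply_right] at h'
        exact huv h'
      · rw [key a ha] at h'
        exact ha h'
    · intro a b hab h
      have h' : Equiv.swap u v (φ a) = u := h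
      have ha : φ a = v := by
        by_contra hne
        rw [key a hne] at h'
        exact hu a h'
      have hb : φ b ≠ v := fun hh => hab.ne (hc.1 (ha.trans hh.symm))
      show G.Adj v (Equiv.swap u v (φ b))
      rw [key b hb, ← ha]
      exact hc.2 a b hab
  · intro φ _ ψ _ h
    funext a
    exact (Equiv.swap u v).injective (congrFun h a)

lemma split (F : SimpleGraph α) (G : SimpleGraph β) {u v : β} :
    ∃ c, I F G v = c + (N0 F G v u).card + (D F G v u).card ∧
      I F G u = c + (N0 F G u v).card + (D F G u v).card := by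
  classical
  refine ⟨((Cop F G).filter (fun φ => (∃ a, φ a = v) ∧ (∃ a, φ a = u))).card, ?_, ?_⟩
  · have h1 : (Cop F G).filter (fun φ => ∃ a, φ a = v) =
        ((Cop F G).filter (fun φ => (∃ a, φ a = v) ∧ (∃ a, φ a = u)) ∪ N0 F G v u) ∪ D F G v u := by
      ext φ
      simp only [Finset.mem_union, Finset.mem_filter, mem_N0, mem_D]
      constructor
      · rintro ⟨hc, a, ha⟩
        by_cases hu : ∃ a, φ a = u
        · left; left; exact ⟨hc, ⟨a, ha⟩, hu⟩
        · push Not at hu
          by_cases hN : ∀ a b, F.Adj a b → φ a = v → G.Adj u (φ b)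
          · left; right; exact ⟨hc, ⟨a, ha⟩, hu, hN⟩
          · push Not at hN
            right; exact ⟨hc, hu, hN⟩
      · rintro ((⟨hc, hv, -⟩ | ⟨hc, hv, -⟩) | ⟨hc, -, a, b, -, ha, -⟩)
        · exact ⟨hc, hv⟩
        · exact ⟨hc, hv⟩
        · exact ⟨hc, a, ha⟩
    unfold I
    rw [h1, Finset.card_union_of_disjoint, Finset.card_union_of_disjoint]
    · rw [Finset.disjoint_left]
      intro φ h2 h3
      rw [Finset.mem_filter] at h2
      rw [mem_N0] at h3
      obtain ⟨a, ha⟩ := h2.2.2
      exact h3.2.2.1 a ha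
    · rw [Finset.disjoint_left]
      intro φ h2 h3
      rw [mem_D] at h3
      rw [Finset.mem_union, Finset.mem_filter, mem_N0] at h2
      rcases h2 with ⟨-, -, a, ha⟩ | ⟨-, -, -, hN⟩
      · exact h3.2.1 a ha
      · obtain ⟨a, b, hab, ha, hn⟩ := h3.2.2
        exact hn (hN a b hab ha)
  · have h1 : (Cop F G).filter (fun φ => ∃ a, φ a = u) =
        ((Cop F G).filter (fun φ => (∃ a, φ a = v) ∧ (∃ a, φ a = u)) ∪ N0 F G u v) ∪ D F G u v := by
      ext φ
      simp only [Finset.mem_union, Finset.mem_filter, mem_N0, mem_D]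
      constructor
      · rintro ⟨hc, a, ha⟩
        by_cases hu : ∃ a, φ a = v
        · left; left; exact ⟨hc, hu, ⟨a, ha⟩⟩
        · push Not at hu
          by_cases hN : ∀ a b, F.Adj a b → φ a = u → G.Adj v (φ b)
          · left; right; exact ⟨hc, ⟨a, ha⟩, hu, hN⟩
          · push Not at hN
            right; exact ⟨hc, hu, hN⟩
      · rintro ((⟨hc, -, hv⟩ | ⟨hc, hv, -⟩) | ⟨hc, -, a, b, -, ha, -⟩)
        · exact ⟨hc, hv⟩
        · exact ⟨hc, hv⟩
        · exact ⟨hc, a, ha⟩
    unfold I
    rw [h1, Finset.card_union_of_disjoint, Finset.card_union_of_disjoint]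
    · rw [Finset.disjoint_left]
      intro φ h2 h3
      rw [Finset.mem_filter] at h2
      rw [mem_N0] at h3
      obtain ⟨a, ha⟩ := h2.2.1
      exact h3.2.2.1 a ha
    · rw [Finset.disjoint_left]
      intro φ h2 h3
      rw [mem_D] at h3
      rw [Finset.mem_union, Finset.mem_filter, mem_N0] at h2
      rcases h2 with ⟨-, ⟨a, ha⟩, -⟩ | ⟨-, -, -, hN⟩
      · exact h3.2.1 a ha
      · obtain ⟨a, b, hab, ha, hn⟩ := h3.2.2
        exact hn (hN a b hab ha)

/-- the comparison lemma: `I v - I u = |D v u| - |D u v|` -/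
theorem I_add (F : SimpleGraph α) (G : SimpleGraph β) (u v : β) :
    I F G v + (D F G u v).card = I F G u + (D F G v u).card := by
  obtain ⟨c, h1, h2⟩ := split F G (u := u) (v := v)
  have h3 := N0_card_le F G v u
  have h4 := N0_card_le F G u v
  omega

theorem I_lt (F : SimpleGraph α) (G : SimpleGraph β) {u v : β}
    (h : (D F G u v).card < (D F G v u).card) : I F G u < I F G v := by
  have := I_add F G u v
  omega

end H16.FI
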