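import Mathlib
import Pool.Agent.H16.FI.Defs

set_option linter.unusedSectionVars false

namespace H16.FI

open Function Finset
open scoped Classical

variable {α β : Type} [Fintype α] [Fintype β]

/-- injections into `U` -/
noncomputable def InjU (A' : Type) [Fintype A'] (U : Finset β) : Finset (A' → β) :=
  univ.filter (fun ι : A' → β => Injective ι ∧ ∀ a, ι a ∈ U)

/-- injections into `U` hitting `κ` -/
noncomputable def InjH (A' : Type) [Fintype A'] (U : Finset β) (κ : β) : Finset (A' → β) :=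
  univ.filter (fun ι : A' → β => (Injective ι ∧ ∀ a, ι a ∈ U) ∧ ∃ a, ι a = κ)

lemma mem_InjU {A' : Type} [Fintype A'] {U : Finset β} {ι : A' → β} :
    ι ∈ InjU A' U ↔ Injective ι ∧ ∀ a, ι a ∈ U := by
  simp [InjU]

lemma mem_InjH {A' : Type} [Fintype A'] {U : Finset β} {κ : β} {ι : A' → β} :
    ι ∈ InjH A' U κ ↔ (Injective ι ∧ ∀ a, ι a ∈ U) ∧ ∃ a, ι a = κ := by
  simp [InjH]

lemma inj_card (A' : Type) [Fintype A'] (U : Finset β) :
    (InjU A' U).card = U.card.descFactorial (Fintype.card A') := by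
  have h : Fintype.card (A' ↪ U) = (Fintype.card U).descFactorial (Fintype.card A') :=
    Fintype.card_embedding_eq
  rw [Fintype.card_coe] at h
  rw [← h, ← Finset.card_univ]
  symm
  refine Finset.card_bij (fun e _ a => (e a : β)) ?_ ?_ ?_
  · intro e _
    rw [mem_InjU]
    exact ⟨fun a b h => e.injective (Subtype.ext h), fun a => (e a).2⟩
  · intro e _ e' _ h
    ext a
    exact congrFun h a
  · intro ι hι
    rw [mem_InjU] at hι
    exact ⟨⟨fun a => ⟨ι a, hι.2 a⟩, fun a b h => hι.1 (congrArg Subtype.val h)⟩, mem_univ _, rfl⟩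

lemma inj_hit_card (A' : Type) [Fintype A'] (U : Finset β) {κ : β} (hκ : κ ∈ U) :
    (InjH A' U κ).card +
      (U.card - 1).descFactorial (Fintype.card A') = U.card.descFactorial (Fintype.card A') := by
  rw [← inj_card A' U, ← Finset.card_erase_of_mem hκ, ← inj_card A' (U.erase κ),
    ← Finset.card_union_of_disjoint]
  · congr 1
    ext ι
    simp only [mem_union, mem_InjU, mem_InjH, mem_erase]
    constructor
    · rintro (h | h)
      · exact h.1
      · exact ⟨h.1, fun a => (h.2 a).2⟩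
    · intro h
      by_cases hh : ∃ a, ι a = κ
      · exact Or.inl ⟨h, hh⟩
      · push Not at hh
        exact Or.inr ⟨h.1, fun a => ⟨hh a, h.2 a⟩⟩
  · rw [Finset.disjoint_left]
    intro ι h1 h2
    simp only [mem_InjU, mem_InjH, mem_erase] at h1 h2
    obtain ⟨a, ha⟩ := h1.2
    exact (h2.2 a).1 ha

/-- degree -/
noncomputable def dg (F : SimpleGraph α) (z : α) : ℕ := Fintype.card {a // F.Adj z a}

/-- the vertices outside the closed neighbourhood of `z` -/
abbrev Rs (F : SimpleGraph α) (z : α) := {a // a ≠ z ∧ ¬ F.Adj z a}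

noncomputable def Ms (F : SimpleGraph α) (G : SimpleGraph β) (R : Finset β) (z : α) :
    Finset (Rs F z → β) :=
  univ.filter (fun ψ => Injective ψ ∧ (∀ a, ψ a ∈ R) ∧ ∀ a b : Rs F z, F.Adj a b → G.Adj (ψ a) (ψ b))

noncomputable def M (F : SimpleGraph α) (G : SimpleGraph β) (R : Finset β) (δ : ℕ) : ℕ :=
  ∑ z ∈ univ.filter (fun z => dg F z = δ), (Ms F G R z).card

/-- main copies through `w` at the vertex `z` -/
noncomputable def TZ (F : SimpleGraph α) (G : SimpleGraph β) (R : Finset β) (w : β) (U : Finset β)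
    (z : α) : Finset (α → β) :=
  (Cop F G).filter (fun φ => φ z = w ∧ (∀ a, F.Adj z a → φ a ∈ U) ∧
    ∀ a, a ≠ z → ¬ F.Adj z a → φ a ∈ R)

/-- main copies through `w` -/
noncomputable def TT (F : SimpleGraph α) (G : SimpleGraph β) (R : Finset β) (δ : ℕ) (w : β)
    (U : Finset β) : Finset (α → β) :=
  (univ.filter (fun z => dg F z = δ)).biUnion (fun z => TZ F G R w U z)

/-- main copies through `w` using the edge `w κ` -/
noncomputable def TH (F : SimpleGraph α) (G : SimpleGraph β) (R : Finset β) (δ : ℕ) (w : β)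
    (U : Finset β) (κ : β) : Finset (α → β) :=
  (univ.filter (fun z => dg F z = δ)).biUnion (fun z =>
    (TZ F G R w U z).filter (fun φ => ∃ a, F.Adj z a ∧ φ a = κ))

lemma mem_TZ {F : SimpleGraph α} {G : SimpleGraph β} {R : Finset β} {w : β} {U : Finset β}
    {z : α} {φ : α → β} : φ ∈ TZ F G R w U z ↔ φ ∈ Cop F G ∧ φ z = w ∧
      (∀ a, F.Adj z a → φ a ∈ U) ∧ ∀ a, a ≠ z → ¬ F.Adj z a → φ a ∈ R := by
  simp [TZ]

lemma mem_TT {F : SimpleGraph α} {G : SimpleGraph β} {R : Finset β} {δ : ℕ} {w : β} {U : Finset β}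
    {φ : α → β} : φ ∈ TT F G R δ w U ↔ ∃ z, dg F z = δ ∧ φ ∈ TZ F G R w U z := by
  simp [TT]

lemma mem_TH {F : SimpleGraph α} {G : SimpleGraph β} {R : Finset β} {δ : ℕ} {w : β} {U : Finset β}
    {κ : β} {φ : α → β} : φ ∈ TH F G R δ w U κ ↔ ∃ z, dg F z = δ ∧ φ ∈ TZ F G R w U z ∧
      ∃ a, F.Adj z a ∧ φ a = κ := by
  simp [TH]

lemma restrict_eq {F : SimpleGraph α} {z : α} {φ φ' : α → β} (h0 : φ z = φ' z)
    (h1 : ∀ a, F.Adj z a → φ a = φ' a) (h2 : ∀ a, a ≠ z → ¬ F.Adj z a → φ a = φ' a) : φ = φ' := by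
  funext a
  by_cases ha : a = z
  · rw [ha]; exact h0
  · by_cases hb : F.Adj z a
    · exact h1 a hb
    · exact h2 a ha hb

lemma TZ_le (F : SimpleGraph α) (G : SimpleGraph β) (R : Finset β) (w : β) (U : Finset β) (z : α) :
    (TZ F G R w U z).card ≤ U.card.descFactorial (dg F z) * (Ms F G R z).card := by
  rw [dg, ← inj_card {a // F.Adj z a} U, ← Finset.card_product]
  refine Finset.card_le_card_of_injOn
    (fun φ => ((fun a : {a // F.Adj z a} => φ a), (fun a : Rs F z => φ a))) ?_ ?_
  · intro φ hφ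
    rw [Finset.mem_coe, mem_TZ, mem_Cop] at hφ
    rw [Finset.mem_coe, Finset.mem_product]
    refine ⟨?_, ?_⟩
    · rw [mem_InjU]
      exact ⟨fun a b h => Subtype.ext (hφ.1.1 h), fun a => hφ.2.2.1 a a.2⟩
    · rw [Ms, mem_filter]
      exact ⟨mem_univ _, fun a b h => Subtype.ext (hφ.1.1 h), fun a => hφ.2.2.2 a a.2.1 a.2.2,
        fun a b h => hφ.1.2 a b h⟩
  · intro φ hφ φ' hφ' h
    rw [Finset.mem_coe, mem_TZ] at hφ hφ'
    simp only [Prod.mk.injEq] at h
    refine restrict_eq (F := F) (z := z) (hφ.2.1.trans hφ'.2.1.symm) ?_ ?_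
    · intro a ha
      exact congrFun h.1 ⟨a, ha⟩
    · intro a ha hb
      exact congrFun h.2 ⟨a, ha, hb⟩

lemma TT_le (F : SimpleGraph α) (G : SimpleGraph β) (R : Finset β) (δ : ℕ) (w : β) (U : Finset β) :
    (TT F G R δ w U).card ≤ U.card.descFactorial δ * M F G R δ := by
  refine (Finset.card_biUnion_le).trans ?_
  rw [M, Finset.mul_sum]
  refine Finset.sum_le_sum fun z hz => ?_
  rw [mem_filter] at hz
  have := TZ_le F G R w U z
  rwa [hz.2] at this

lemma TH_le (F : SimpleGraph α) (G : SimpleGraph β) (R : Finset β) (δ : ℕ) (w : β) (U : Finset β)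
    {κ : β} (hκ : κ ∈ U) :
    (TH F G R δ w U κ).card ≤
      (U.card.descFactorial δ - (U.card - 1).descFactorial δ) * M F G R δ := by
  refine (Finset.card_biUnion_le).trans ?_
  rw [M, Finset.mul_sum]
  refine Finset.sum_le_sum fun z hz => ?_
  rw [mem_filter] at hz
  have h1 := inj_hit_card {a // F.Adj z a} U hκ
  have hz2 : dg F z = δ := hz.2
  rw [← dg, hz2] at h1
  have h2 : U.card.descFactorial δ - (U.card - 1).descFactorial δ =
      (InjH {a // F.Adj z a} U κ).card := by omega
  rw [h2, ← Finset.card_product]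
  refine Finset.card_le_card_of_injOn
    (fun φ => ((fun a : {a // F.Adj z a} => φ a), (fun a : Rs F z => φ a))) ?_ ?_
  · intro φ hφ
    rw [Finset.mem_coe, mem_filter, mem_TZ, mem_Cop] at hφ
    obtain ⟨hφ, a0, ha0, hκ0⟩ := hφ
    rw [Finset.mem_coe, Finset.mem_product]
    refine ⟨?_, ?_⟩
    · rw [mem_InjH]
      exact ⟨⟨fun a b h => Subtype.ext (hφ.1.1 h), fun a => hφ.2.2.1 a a.2⟩,
        ⟨a0, ha0⟩, hκ0⟩
    · rw [Ms, mem_filter]
      exact ⟨mem_univ _, fun a b h => Subtype.ext (hφ.1.1 h), fun a => hφ.2.2.2 a a.2.1 a.2.2,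
        fun a b h => hφ.1.2 a b h⟩
  · intro φ hφ φ' hφ' h
    rw [Finset.mem_coe, mem_filter, mem_TZ] at hφ hφ'
    simp only [Prod.mk.injEq] at h
    refine restrict_eq (F := F) (z := z) (hφ.1.2.1.trans hφ'.1.2.1.symm) ?_ ?_
    · intro a ha
      exact congrFun h.1 ⟨a, ha⟩
    · intro a ha hb
      exact congrFun h.2 ⟨a, ha, hb⟩

/-- `U` is a clique of neighbours of `w`, complete to `R` -/
structure Good (G : SimpleGraph β) (R : Finset β) (w : β) (U : Finset β) : Prop where
  wR : w ∉ R
  UR : ∀ u ∈ U, ∀ r ∈ R, G.Adj u r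
  UU : ∀ u ∈ U, ∀ u' ∈ U, u ≠ u' → G.Adj u u'
  wU : ∀ u ∈ U, G.Adj w u

/-- glue -/
noncomputable def glue (F : SimpleGraph α) (z : α) (w : β) (ι : {a // F.Adj z a} → β)
    (ψ : Rs F z → β) : α → β := fun a =>
  if ha : a = z then w else if hb : F.Adj z a then ι ⟨a, hb⟩ else ψ ⟨a, ha, hb⟩

lemma glue_z (F : SimpleGraph α) (z : α) (w : β) (ι : {a // F.Adj z a} → β)
    (ψ : Rs F z → β) : glue F z w ι ψ z = w := by simp [glue]

lemma glue_N (F : SimpleGraph α) (z : α) (w : β) (ι : {a // F.Adj z a} → β)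
    (ψ : Rs F z → β) {a : α} (h : F.Adj z a) : glue F z w ι ψ a = ι ⟨a, h⟩ := by
  have : a ≠ z := h.ne.symm
  simp [glue, this, h]

lemma glue_R (F : SimpleGraph α) (z : α) (w : β) (ι : {a // F.Adj z a} → β)
    (ψ : Rs F z → β) {a : α} (h1 : a ≠ z) (h : ¬ F.Adj z a) :
    glue F z w ι ψ a = ψ ⟨a, h1, h⟩ := by
  simp [glue, h1, h]

lemma TZ_ge (F : SimpleGraph α) (G : SimpleGraph β) (R : Finset β) (w : β) (U : Finset β) (z : α)
    (hG : Good G R w U) :
    U.card.descFactorial (dg F z) * (Ms F G R z).card ≤ (TZ F G R w U z).card := by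
  rw [dg, ← inj_card {a // F.Adj z a} U, ← Finset.card_product]
  refine Finset.card_le_card_of_injOn (fun p => glue F z w p.1 p.2) ?_ ?_
  · rintro ⟨ι, ψ⟩ hp
    rw [Finset.mem_coe, Finset.mem_product, mem_InjU, Ms, mem_filter] at hp
    obtain ⟨⟨hi, hiU⟩, -, hj, hjR, hjF⟩ := hp
    simp only at hi hiU hj hjR hjF
    have hw : ∀ u ∈ U, u ≠ w := fun u hu h => (hG.wU u hu).ne h.symm
    have hr : ∀ r ∈ R, r ≠ w := fun r hr h => hG.wR (h ▸ hr)
    have hur : ∀ u ∈ U, ∀ r ∈ R, u ≠ r := fun u hu r hr => (hG.UR u hu r hr).ne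
    show glue F z w ι ψ ∈ ((TZ F G R w U z : Finset (α → β)) : Set (α → β))
    rw [Finset.mem_coe, mem_TZ, mem_Cop]
    refine ⟨⟨?_, ?_⟩, glue_z .., ?_, ?_⟩
    · intro a b h
      by_cases ha : a = z
      · by_cases hb : b = z
        · rw [ha, hb]
        · rw [ha, glue_z] at h
          by_cases hb2 : F.Adj z b
          · rw [glue_N F z w ι ψ hb2] at h
            exact absurd h.symm (hw _ (hiU _))
          · rw [glue_R F z w ι ψ hb hb2] at h
            exact absurd h.symm (hr _ (hjR _))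
      · by_cases ha2 : F.Adj z a
        · rw [glue_N F z w ι ψ ha2] at h
          by_cases hb : b = z
          · rw [hb, glue_z] at h
            exact absurd h (hw _ (hiU _))
          · by_cases hb2 : F.Adj z b
            · rw [glue_N F z w ι ψ hb2] at h
              exact congrArg Subtype.val (hi h)
            · rw [glue_R F z w ι ψ hb hb2] at h
              exact absurd h (hur _ (hiU _) _ (hjR _))
        · rw [glue_R F z w ι ψ ha ha2] at h
          by_cases hb : b = z
          · rw [hb, glue_z] at h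
            exact absurd h (hr _ (hjR _))
          · by_cases hb2 : F.Adj z b
            · rw [glue_N F z w ι ψ hb2] at h
              exact absurd h.symm (hur _ (hiU _) _ (hjR _))
            · rw [glue_R F z w ι ψ hb hb2] at h
              exact congrArg Subtype.val (hj h)
    · intro a b hab
      by_cases ha : a = z
      · subst ha
        rw [glue_z, glue_N F a w ι ψ hab]
        exact hG.wU _ (hiU _)
      · by_cases ha2 : F.Adj z a
        · rw [glue_N F z w ι ψ ha2]
          by_cases hb : b = z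
          · subst hb
            rw [glue_z]
            exact (hG.wU _ (hiU _)).symm
          · by_cases hb2 : F.Adj z b
            · rw [glue_N F z w ι ψ hb2]
              exact hG.UU _ (hiU _) _ (hiU _) (fun h => hab.ne (congrArg Subtype.val (hi h)))
            · rw [glue_R F z w ι ψ hb hb2]
              exact hG.UR _ (hiU _) _ (hjR _)
        · rw [glue_R F z w ι ψ ha ha2]
          by_cases hb : b = z
          · subst hb
            exact absurd hab.symm ha2
          · by_cases hb2 : F.Adj z b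
            · rw [glue_N F z w ι ψ hb2]
              exact (hG.UR _ (hiU _) _ (hjR _)).symm
            · rw [glue_R F z w ι ψ hb hb2]
              exact hjF _ _ hab
    · intro a ha
      rw [glue_N F z w ι ψ ha]
      exact hiU _
    · intro a ha hb
      rw [glue_R F z w ι ψ ha hb]
      exact hjR _
  · rintro ⟨ι, ψ⟩ _ ⟨ι', ψ'⟩ _ h
    simp only at h
    refine Prod.ext ?_ ?_
    · funext a
      have := congrFun h a.1
      rwa [glue_N F z w ι ψ a.2, glue_N F z w ι' ψ' a.2] at this
    · funext a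
      have := congrFun h a.1
      rwa [glue_R F z w ι ψ a.2.1 a.2.2, glue_R F z w ι' ψ' a.2.1 a.2.2] at this

lemma TT_ge (F : SimpleGraph α) (G : SimpleGraph β) (R : Finset β) (δ : ℕ) (w : β) (U : Finset β)
    (hG : Good G R w U) :
    U.card.descFactorial δ * M F G R δ ≤ (TT F G R δ w U).card := by
  rw [TT, Finset.card_biUnion]
  · rw [M, Finset.mul_sum]
    refine Finset.sum_le_sum fun z hz => ?_
    rw [mem_filter] at hz
    have := TZ_ge F G R w U z hG
    rwa [hz.2] at this
  · intro z _ z' _ hne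
    refine Finset.disjoint_left.2 ?_
    intro φ h1 h2
    rw [mem_TZ, mem_Cop] at h1 h2
    exact hne (h1.1.1 (h1.2.1.trans h2.2.1.symm))

lemma TT_sdiff_ge (F : SimpleGraph α) (G : SimpleGraph β) (R : Finset β) (δ : ℕ) (w : β)
    (U U' : Finset β) (hG : Good G R w U) :
    (U.card.descFactorial δ - U'.card.descFactorial δ) * M F G R δ ≤
      (TT F G R δ w U \ TT F G R δ w U').card := by
  have h1 := TT_ge F G R δ w U hG
  have h2 := TT_le F G R δ w U'
  have h3 := Finset.le_card_sdiff (TT F G R δ w U') (TT F G R δ w U)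
  rw [Nat.sub_mul]
  omega

/-- copies with at least `t` vertices in `Z` -/
noncomputable def Eb (F : SimpleGraph α) (G : SimpleGraph β) (Z : Finset β) (t : ℕ) :
    Finset (α → β) :=
  (Cop F G).filter (fun φ => t ≤ (univ.filter (fun a => φ a ∈ Z)).card)

lemma Eb_le (F : SimpleGraph α) (G : SimpleGraph β) (Z : Finset β) (t : ℕ) :
    (Eb F G Z t).card ≤ (Fintype.card α).choose t * (Z.card ^ t *
      (Fintype.card β) ^ (Fintype.card α - t)) := by
  have hsub : Eb F G Z t ⊆ (Finset.powersetCard t (univ : Finset α)).biUnion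
      (fun S => Fintype.piFinset (fun a => if a ∈ S then Z else univ)) := by
    intro φ hφ
    rw [Eb, mem_filter] at hφ
    obtain ⟨S, hS, hSc⟩ := Finset.exists_subset_card_eq hφ.2
    rw [mem_biUnion]
    refine ⟨S, ?_, ?_⟩
    · rw [mem_powersetCard]
      exact ⟨subset_univ _, hSc⟩
    · rw [Fintype.mem_piFinset]
      intro a
      split_ifs with h
      · exact (mem_filter.1 (hS h)).2
      · exact mem_univ _
  refine (Finset.card_le_card hsub).trans ((Finset.card_biUnion_le).trans ?_)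
  rw [← Finset.card_univ (α := α), ← Finset.card_powersetCard, Finset.card_eq_sum_ones,
    Finset.sum_mul]
  refine Finset.sum_le_sum fun S hS => ?_
  rw [mem_powersetCard] at hS
  rw [Fintype.card_piFinset, one_mul]
  have : ∀ a : α, (if a ∈ S then Z else (univ : Finset β)).card =
      if a ∈ S then Z.card else Fintype.card β := by
    intro a
    split_ifs
    · rfl
    · exact Finset.card_univ
  rw [Finset.prod_congr rfl (fun a _ => this a), Finset.prod_ite, Finset.prod_const,
    Finset.prod_const]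
  have h1 : (univ.filter (fun a => a ∈ S)) = S := by ext; simp
  have h2 : (univ.filter (fun a => a ∉ S)) = Sᶜ := by ext; simp
  rw [h1, h2, Finset.card_compl, hS.2, Finset.card_univ]

end H16.FI
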