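import Mathlib
import Pool.Agent.H16.FI.Defs
import Pool.Agent.H16.FI.G1

set_option linter.unusedSectionVars false

namespace H16.FI

open Function Finset
open scoped Classical

variable {α β : Type} [Fintype α] [Fintype β]

lemma D_card_zero {F : SimpleGraph α} {G : SimpleGraph β} {v u : β}
    (h : ∀ w, G.Adj v w → w ≠ u → G.Adj u w) : (D F G v u).card = 0 := by
  rw [Finset.card_eq_zero, Finset.eq_empty_iff_forall_notMem]
  intro φ hφ
  rw [mem_D, mem_Cop] at hφ
  obtain ⟨hc, hu, a, b, hab, ha, hn⟩ := hφ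
  exact hn (h _ (ha ▸ hc.2 a b hab) (hu b))

lemma clique_D {F : SimpleGraph α} {G : SimpleGraph β} {C : Finset β} {u v w : β} {z0 z1 : α}
    (h01 : F.Adj z0 z1) (hC : ∀ c ∈ C, ∀ c' ∈ C, c ≠ c' → G.Adj c c')
    (hcard : Fintype.card α ≤ C.card) (hv : v ∈ C) (hw : w ∈ C) (hvw : v ≠ w) (hu : u ∉ C)
    (huw : ¬ G.Adj u w) : 0 < (D F G v u).card := by
  have hne : Nonempty (α ↪ C) := by
    apply Function.Embedding.nonempty_of_card_le
    rw [Fintype.card_coe]
    exact hcard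
  obtain ⟨e⟩ := hne
  let V : C := ⟨v, hv⟩
  let W : C := ⟨w, hw⟩
  let σ := Equiv.swap (e z0) V
  let τ := Equiv.swap (σ (e z1)) W
  have hσ : σ (e z0) = V := Equiv.swap_apply_left _ _
  have h1 : σ (e z1) ≠ V := fun h => h01.ne (e.injective (σ.injective (hσ.trans h.symm)))
  have hVW : V ≠ W := fun h => hvw (congrArg Subtype.val h)
  have hτ0 : τ (σ (e z0)) = V := by
    rw [hσ]; exact Equiv.swap_apply_of_ne_of_ne h1.symm hVW
  have hτ1 : τ (σ (e z1)) = W := Equiv.swap_apply_left _ _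
  rw [Finset.card_pos]
  refine ⟨fun a => (τ (σ (e a)) : β), ?_⟩
  have hinj : Injective (fun a => (τ (σ (e a)) : β)) := fun a b h =>
    e.injective (σ.injective (τ.injective (Subtype.ext h)))
  rw [mem_D, mem_Cop]
  refine ⟨⟨hinj, fun a b hab => ?_⟩, ?_, z0, z1, h01, ?_, ?_⟩
  · exact hC _ (Subtype.prop _) _ (Subtype.prop _) (fun h => hab.ne (hinj h))
  · intro a h
    exact hu (h ▸ (τ (σ (e a))).2)
  · show ((τ (σ (e z0)) : C) : β) = v
    rw [hτ0]
  · show ¬ G.Adj u ((τ (σ (e z1)) : C) : β)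
    rw [hτ1]
    exact huw

lemma mem_Eb {F : SimpleGraph α} {G : SimpleGraph β} {Z : Finset β} {t : ℕ} {φ : α → β} :
    φ ∈ Eb F G Z t ↔ φ ∈ Cop F G ∧ t ≤ (univ.filter (fun a => φ a ∈ Z)).card := by
  simp [Eb]

/-- closed neighbourhood in `F` -/
noncomputable def cn (F : SimpleGraph α) (z : α) : Finset α := insert z (univ.filter (fun a => F.Adj z a))

lemma cn_card (F : SimpleGraph α) (z : α) : (cn F z).card = dg F z + 1 := by
  rw [cn, Finset.card_insert_of_notMem (by simp), dg, Fintype.card_subtype]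

lemma cn_sub {F : SimpleGraph α} {G : SimpleGraph β} {Z : Finset β} {x : β} {φ : α → β} {z : α}
    (hx : x ∈ Z) (hU : ∀ u, G.Adj x u → u ∈ Z) (hφ : φ ∈ Cop F G) (hz : φ z = x) :
    cn F z ⊆ univ.filter (fun a => φ a ∈ Z) := by
  rw [mem_Cop] at hφ
  intro a ha
  rw [cn, mem_insert, mem_filter] at ha
  rw [mem_filter]
  refine ⟨mem_univ _, ?_⟩
  rcases ha with rfl | ⟨-, ha⟩
  · rw [hz]; exact hx
  · exact hU _ (hz ▸ hφ.2 z a ha)

lemma Eb_of_dg {F : SimpleGraph α} {G : SimpleGraph β} {Z : Finset β} {x : β} {φ : α → β} {z : α}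
    {t : ℕ} (hx : x ∈ Z) (hU : ∀ u, G.Adj x u → u ∈ Z) (hφ : φ ∈ Cop F G) (hz : φ z = x)
    (ht : t ≤ dg F z + 1) : φ ∈ Eb F G Z t := by
  rw [mem_Eb]
  refine ⟨hφ, ht.trans ?_⟩
  rw [← cn_card]
  exact Finset.card_le_card (cn_sub hx hU hφ hz)

lemma ub_lemma {F : SimpleGraph α} {G : SimpleGraph β} {Z R U : Finset β} {δ : ℕ} {x : β}
    {φ : α → β} {z : α} (hδ : ∀ z, δ ≤ dg F z) (hZR : ∀ b, b ∉ Z → b ∈ R) (hx : x ∈ Z)
    (hU : ∀ u, G.Adj x u → u ∈ U) (hUZ : U ⊆ Z) (hφ : φ ∈ Cop F G) (hz : φ z = x) :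
    (dg F z = δ ∧ φ ∈ TZ F G R x U z) ∨ φ ∈ Eb F G Z (δ + 2) := by
  by_cases hE : φ ∈ Eb F G Z (δ + 2)
  · exact Or.inr hE
  left
  have hN : ∀ u, G.Adj x u → u ∈ Z := fun u hu => hUZ (hU u hu)
  have hd : dg F z = δ := by
    by_contra hne
    have := hδ z
    exact hE (Eb_of_dg hx hN hφ hz (by omega))
  refine ⟨hd, ?_⟩
  have hsub := cn_sub hx hN hφ hz
  have hcard : (univ.filter (fun a => φ a ∈ Z)).card ≤ (cn F z).card := by
    rw [cn_card, hd]
    by_contra hlt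
    push Not at hlt
    exact hE (mem_Eb.2 ⟨hφ, by omega⟩)
  have heq := Finset.eq_of_subset_of_card_le hsub hcard
  have hφ' := hφ
  rw [mem_Cop] at hφ'
  rw [mem_TZ]
  refine ⟨hφ, hz, fun a ha => hU _ (hz ▸ hφ'.2 z a ha), fun a ha hb => hZR _ fun hZ => ?_⟩
  have : a ∈ cn F z := by
    rw [heq, mem_filter]
    exact ⟨mem_univ _, hZ⟩
  rw [cn, mem_insert, mem_filter] at this
  rcases this with h | h
  · exact ha h
  · exact hb h.2

lemma Rs_card (F : SimpleGraph α) (z : α) :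
    Fintype.card (Rs F z) = Fintype.card α - 1 - dg F z := by
  have h1 : Fintype.card (Rs F z) = (univ.filter (fun a => a ≠ z ∧ ¬ F.Adj z a)).card := by
    rw [Fintype.card_subtype]
  have h2 : (univ.filter (fun a => a ≠ z ∧ ¬ F.Adj z a)) = (cn F z)ᶜ := by
    ext a
    simp [cn]
  rw [h1, h2, Finset.card_compl, cn_card]
  omega

lemma M_ge {F : SimpleGraph α} {G : SimpleGraph β} {R A' : Finset β} {δ : ℕ} {z0 : α}
    (hz0 : dg F z0 = δ) (hA : A' ⊆ R) (hcl : ∀ c ∈ A', ∀ c' ∈ A', c ≠ c' → G.Adj c c') :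
    A'.card.descFactorial (Fintype.card α - 1 - δ) ≤ M F G R δ := by
  have h1 : (Ms F G R z0).card ≤ M F G R δ := by
    rw [M]
    exact Finset.single_le_sum (f := fun z => (Ms F G R z).card) (fun _ _ => Nat.zero_le _)
      (mem_filter.2 ⟨mem_univ _, hz0⟩)
  refine le_trans ?_ h1
  rw [← hz0, ← Rs_card, ← inj_card]
  refine Finset.card_le_card fun ψ hψ => ?_
  rw [mem_InjU] at hψ
  rw [Ms, mem_filter]
  exact ⟨mem_univ _, hψ.1, fun a => hA (hψ.2 a), fun a b hab => hcl _ (hψ.2 a) _ (hψ.2 b)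
    (fun h => hab.ne (congrArg Subtype.val (hψ.1 h)))⟩

lemma D_ge_inj {F : SimpleGraph α} {G : SimpleGraph β} {A' : Finset β} {u v w : β} {z0 z1 : α}
    (h01 : F.Adj z0 z1) (hcl : ∀ c ∈ A', ∀ c' ∈ A', c ≠ c' → G.Adj c c')
    (hv : ∀ a ∈ A', G.Adj v a) (hw : ∀ a ∈ A', G.Adj w a) (hvw : G.Adj v w)
    (hu : u ∉ A') (huv : v ≠ u) (huw : w ≠ u) (hn : ¬ G.Adj u w) :
    A'.card.descFactorial (Fintype.card α - 2) ≤ (D F G v u).card := by
  have hc : Fintype.card {a // a ≠ z0 ∧ a ≠ z1} = Fintype.card α - 2 := by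
    rw [Fintype.card_subtype]
    have h2 : (univ.filter (fun a => a ≠ z0 ∧ a ≠ z1)) = ({z0, z1} : Finset α)ᶜ := by
      ext a
      simp
    rw [h2, Finset.card_compl, Finset.card_pair h01.ne]
  rw [← hc, ← inj_card]
  have h10 : z1 ≠ z0 := h01.ne.symm
  let gl : ({a // a ≠ z0 ∧ a ≠ z1} → β) → (α → β) := fun ψ a =>
    if h0 : a = z0 then v else if h1 : a = z1 then w else ψ ⟨a, h0, h1⟩
  have g0 : ∀ ψ, gl ψ z0 = v := fun ψ => by simp [gl]
  have g1 : ∀ ψ, gl ψ z1 = w := fun ψ => by simp [gl, h10]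
  have g2 : ∀ ψ a (h0 : a ≠ z0) (h1 : a ≠ z1), gl ψ a = ψ ⟨a, h0, h1⟩ := fun ψ a h0 h1 => by
    simp [gl, h0, h1]
  refine Finset.card_le_card_of_injOn gl ?_ ?_
  · intro ψ hψ
    rw [Finset.mem_coe, mem_InjU] at hψ
    have hψv : ∀ a, ψ a ≠ v := fun a h => (hv _ (hψ.2 a)).ne h.symm
    have hψw : ∀ a, ψ a ≠ w := fun a h => (hw _ (hψ.2 a)).ne h.symm
    rw [Finset.mem_coe, mem_D, mem_Cop]
    have hinj : Injective (gl ψ) := by
      intro a b h
      by_cases a0 : a = z0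
      · by_cases b0 : b = z0
        · rw [a0, b0]
        · by_cases b1 : b = z1
          · rw [a0, b1, g0, g1] at h
            exact absurd h hvw.ne
          · rw [a0, g0, g2 ψ b b0 b1] at h
            exact absurd h.symm (hψv _)
      · by_cases a1 : a = z1
        · by_cases b0 : b = z0
          · rw [a1, b0, g0, g1] at h
            exact absurd h.symm hvw.ne
          · by_cases b1 : b = z1
            · rw [a1, b1]
            · rw [a1, g1, g2 ψ b b0 b1] at h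
              exact absurd h.symm (hψw _)
        · by_cases b0 : b = z0
          · rw [b0, g0, g2 ψ a a0 a1] at h
            exact absurd h (hψv _)
          · by_cases b1 : b = z1
            · rw [b1, g1, g2 ψ a a0 a1] at h
              exact absurd h (hψw _)
            · rw [g2 ψ a a0 a1, g2 ψ b b0 b1] at h
              exact congrArg Subtype.val (hψ.1 h)
    refine ⟨⟨hinj, ?_⟩, ?_, z0, z1, h01, g0 ψ, by rw [g1]; exact hn⟩
    · have hall : ∀ a, (gl ψ a = v ∨ gl ψ a = w ∨ gl ψ a ∈ A') := by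
        intro a
        by_cases a0 : a = z0
        · left; rw [a0, g0]
        · by_cases a1 : a = z1
          · right; left; rw [a1, g1]
          · right; right; rw [g2 ψ a a0 a1]; exact hψ.2 _
      intro a b hab
      have hne : gl ψ a ≠ gl ψ b := fun h => hab.ne (hinj h)
      rcases hall a with ha | ha | ha <;> rcases hall b with hb | hb | hb
      · exact absurd (ha.trans hb.symm) hne
      · rw [ha, hb]; exact hvw
      · rw [ha]; exact hv _ hb
      · rw [ha, hb]; exact hvw.symm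
      · exact absurd (ha.trans hb.symm) hne
      · rw [ha]; exact hw _ hb
      · rw [hb]; exact (hv _ ha).symm
      · rw [hb]; exact (hw _ ha).symm
      · exact hcl _ ha _ hb hne
    · intro a
      by_cases a0 : a = z0
      · rw [a0, g0]; exact huv
      · by_cases a1 : a = z1
        · rw [a1, g1]; exact huw
        · rw [g2 ψ a a0 a1]
          intro h
          exact hu (h ▸ hψ.2 _)
  · intro ψ _ ψ' _ h
    funext a
    have := congrFun h a.1
    rwa [g2 ψ a a.2.1 a.2.2, g2 ψ' a a.2.1 a.2.2] at this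

/-- growth -/
lemma growth (C c e : ℕ) : ∃ N0, ∀ n, N0 ≤ n → C * (2 * n + c) ^ e < (n - 2).descFactorial (e + 1) := by
  refine ⟨(2 * (e + 2) + c) + (C * 3 ^ e + 1) + e + 2, fun n hn => ?_⟩
  obtain ⟨N, rfl⟩ : ∃ N, n = N + e + 2 := ⟨n - e - 2, by omega⟩
  have h1 : N ^ (e + 1) ≤ (N + e + 2 - 2).descFactorial (e + 1) := by
    have := Nat.pow_sub_le_descFactorial (N + e + 2 - 2) (e + 1)
    have h2 : N + e + 2 - 2 + 1 - (e + 1) = N := by omega
    rwa [h2] at this
  refine lt_of_lt_of_le ?_ h1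
  have h3 : 2 * (N + e + 2) + c ≤ 3 * N := by omega
  calc C * (2 * (N + e + 2) + c) ^ e ≤ C * (3 * N) ^ e := by gcongr
    _ = C * 3 ^ e * N ^ e := by rw [mul_pow]; ring
    _ < N * N ^ e := by
        apply Nat.mul_lt_mul_of_pos_right
        · omega
        · apply Nat.pow_pos; omega
    _ = N ^ (e + 1) := by ring

end H16.FI
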