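import Mathlib
import Pool.Agent.H16.FI.Defs
import Pool.Agent.H16.FI.G1
import Pool.Agent.H16.FI.G2

set_option linter.unusedSectionVars false

namespace H16.FI

open Function Finset

/-- vertices -/
inductive Vt (s J n : ℕ) : Type
  | k (q : Fin s) : Vt s J n
  | ks : Vt s J n
  | a (i : Fin n) : Vt s J n
  | b (j : Fin n) : Vt s J n
  | x (j : Fin J) : Vt s J n
  | y : Vt s J n
  deriving DecidableEq, Fintype

/-- adjacency between `k q` and `x j` -/
def kx (δ q j : ℕ) : Prop := q < δ + j ∧ ¬ (1 ≤ j ∧ j + 1 ≤ δ ∧ q + 1 = j)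

def adj (δ : ℕ) {s J n : ℕ} : Vt s J n → Vt s J n → Prop
  | .k q, .k q' => q ≠ q'
  | .k _, .ks => True
  | .k _, .a _ => True
  | .k _, .b _ => True
  | .k q, .x j => kx δ q j
  | .k _, .y => True
  | .ks, .k _ => True
  | .ks, .ks => False
  | .ks, .a _ => True
  | .ks, .b _ => True
  | .ks, .x j => 1 ≤ j.val ∧ j.val + 1 ≤ δ
  | .ks, .y => False
  | .a _, .k _ => True
  | .a _, .ks => True
  | .a i, .a i' => i ≠ i'
  | .a i, .b j => j.val ≤ i.val
  | .a _, .x _ => False
  | .a i, .y => i.val = 0
  | .b _, .k _ => True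
  | .b _, .ks => True
  | .b j, .a i => j.val ≤ i.val
  | .b _, .b _ => False
  | .b _, .x _ => False
  | .b _, .y => False
  | .x j, .k q => kx δ q j
  | .x j, .ks => 1 ≤ j.val ∧ j.val + 1 ≤ δ
  | .x _, .a _ => False
  | .x _, .b _ => False
  | .x _, .x _ => False
  | .x _, .y => False
  | .y, .k _ => True
  | .y, .ks => False
  | .y, .a i => i.val = 0
  | .y, .b _ => False
  | .y, .x _ => False
  | .y, .y => False

lemma adj_symm (δ : ℕ) {s J n : ℕ} : ∀ u v : Vt s J n, adj δ u v → adj δ v u := by
  intro u v h
  cases u <;> cases v <;> first | exact h | exact Ne.symm h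

/-- the graph -/
def Gr (δ s J n : ℕ) : SimpleGraph (Vt s J n) where
  Adj := adj δ
  symm := ⟨fun u v h => adj_symm δ u v h⟩
  loopless := ⟨fun v h => by cases v <;> simp [adj] at h⟩

/-- the far vertices -/
def inR {s J n : ℕ} : Vt s J n → Prop
  | .a i => 1 ≤ i.val ∧ i.val + 2 ≤ n
  | .b j => j.val + 2 ≤ n
  | _ => False

open scoped Classical

variable {δ s J n : ℕ}

@[simp] lemma Gr_adj (u v : Vt s J n) : (Gr δ s J n).Adj u v ↔ adj δ u v := Iff.rfl

/-- the far set -/
noncomputable def RR (s J n : ℕ) : Finset (Vt s J n) := univ.filter (fun v => inR v)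

/-- the near set -/
noncomputable def ZZ (s J n : ℕ) : Finset (Vt s J n) := univ.filter (fun v => ¬ inR v)

lemma mem_RR {v : Vt s J n} : v ∈ RR s J n ↔ inR v := by simp [RR]

lemma mem_ZZ {v : Vt s J n} : v ∈ ZZ s J n ↔ ¬ inR v := by simp [ZZ]

/-- the vertices `k q` -/
noncomputable def Kp (s J n : ℕ) : Finset (Vt s J n) := univ.image (fun q : Fin s => Vt.k q)

lemma Kp_card : (Kp s J n).card = s := by
  rw [Kp, Finset.card_image_of_injective]
  · simp
  · intro q q' h
    injection h

lemma mem_Kp {v : Vt s J n} : v ∈ Kp s J n ↔ ∃ q, Vt.k q = v := by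
  simp [Kp]

/-- neighbourhood of `x j` -/
noncomputable def NN (δ s J n : ℕ) (j : Fin J) : Finset (Vt s J n) :=
  univ.filter (fun v => adj δ (Vt.x j) v)

lemma mem_NN {j : Fin J} {v : Vt s J n} : v ∈ NN δ s J n j ↔ adj δ (Vt.x j) v := by simp [NN]

lemma NN_card (hs : s = δ + J) (j : Fin J) : (NN δ s J n j).card = δ + j.val := by
  have hj := j.2
  have hlt : ∀ m, m ≤ s → (univ.filter (fun q : Fin s => q.val < m)).card = m := by
    intro m hm
    have : (univ.filter (fun q : Fin s => q.val < m)) =
        (univ : Finset (Fin m)).image (fun t => (⟨t.val, t.2.trans_le hm⟩ : Fin s)) := by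
      ext q
      simp only [mem_filter, mem_univ, true_and, mem_image]
      constructor
      · intro h
        exact ⟨⟨q.val, h⟩, rfl⟩
      · rintro ⟨t, rfl⟩
        exact t.2
    rw [this, Finset.card_image_of_injective]
    · simp
    · intro t t' h
      exact Fin.ext (by simpa using congrArg Fin.val h)
  by_cases h : 1 ≤ j.val ∧ j.val + 1 ≤ δ
  · have hq : j.val - 1 < s := by omega
    have h1 : NN δ s J n j = insert Vt.ks
        (((univ.filter (fun q : Fin s => q.val < δ + j.val)).erase ⟨j.val - 1, hq⟩).image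
          (fun q => (Vt.k q : Vt s J n))) := by
      ext v
      cases v with
      | k q =>
        simp only [mem_NN, adj, kx, mem_insert, mem_image, mem_erase, mem_filter, mem_univ,
          true_and, reduceCtorEq, false_or, Vt.k.injEq, exists_eq_right]
        rw [Ne, Fin.ext_iff]
        show _ ↔ ¬ (q.val = j.val - 1) ∧ _
        omega
      | ks => simp [mem_NN, adj, h.1, h.2]
      | a i => simp [mem_NN, adj]
      | b i => simp [mem_NN, adj]
      | x i => simp [mem_NN, adj]
      | y => simp [mem_NN, adj]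
    rw [h1, Finset.card_insert_of_notMem, Finset.card_image_of_injective,
      Finset.card_erase_of_mem, hlt _ (by omega)]
    · omega
    · simp only [mem_filter, mem_univ, true_and]
      omega
    · intro q q' h
      injection h
    · simp
  · have h1 : NN δ s J n j = ((univ.filter (fun q : Fin s => q.val < δ + j.val)).image
          (fun q => (Vt.k q : Vt s J n))) := by
      ext v
      cases v with
      | k q =>
        simp only [mem_NN, adj, kx, mem_image, mem_filter, mem_univ,
          true_and, Vt.k.injEq, exists_eq_right]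
        omega
      | ks =>
        simp only [mem_NN, adj, mem_image, mem_filter, mem_univ, true_and, reduceCtorEq, and_false,
          exists_false, iff_false]
        exact h
      | a i => simp [mem_NN, adj]
      | b i => simp [mem_NN, adj]
      | x i => simp [mem_NN, adj]
      | y => simp [mem_NN, adj]
    rw [h1, Finset.card_image_of_injective, hlt _ (by omega)]
    intro q q' h
    injection h

lemma V_card : Fintype.card (Vt s J n) ≤ 2 * n + (s + J + 2) := by
  let f : Vt s J n → (Fin s ⊕ Fin n ⊕ Fin n ⊕ Fin J ⊕ Bool)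
    | .k q => .inl q
    | .ks => .inr (.inr (.inr (.inr true)))
    | .a i => .inr (.inl i)
    | .b i => .inr (.inr (.inl i))
    | .x j => .inr (.inr (.inr (.inl j)))
    | .y => .inr (.inr (.inr (.inr false)))
  have hf : Injective f := by
    intro u v h
    cases u <;> cases v <;> simp_all [f]
  have := Fintype.card_le_of_injective f hf
  simp only [Fintype.card_sum, Fintype.card_fin, Fintype.card_bool] at this
  omega

lemma Z_card (hn : 3 ≤ n) : (ZZ s J n).card ≤ s + J + 5 := by
  have hsub : ZZ s J n ⊆ (Kp s J n ∪ univ.image (fun j : Fin J => Vt.x j)) ∪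
      {Vt.ks, Vt.y, Vt.a ⟨0, by omega⟩, Vt.a ⟨n - 1, by omega⟩, Vt.b ⟨n - 1, by omega⟩} := by
    intro v hv
    rw [mem_ZZ] at hv
    cases v with
    | k q => simp [mem_Kp]
    | ks => simp
    | a i =>
      have hi := i.2
      simp only [inR, not_and, not_le] at hv
      simp only [mem_union, mem_insert, mem_singleton, Vt.a.injEq, Fin.ext_iff]
      by_cases h0 : i.val = 0
      · right; right; right; left; exact h0
      · right; right; right; right; left
        show i.val = n - 1
        have := hv (by omega)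
        omega
    | b i =>
      have hi := i.2
      simp only [inR, not_le] at hv
      simp only [mem_union, mem_insert, mem_singleton, Vt.b.injEq, Fin.ext_iff]
      right; right; right; right; right
      show i.val = n - 1
      omega
    | x j => simp
    | y => simp
  refine (Finset.card_le_card hsub).trans ((Finset.card_union_le _ _).trans ?_)
  have h1 := Finset.card_union_le (Kp s J n) (univ.image (fun j : Fin J => Vt.x j))
  rw [Kp_card] at h1
  have h2 : (univ.image (fun j : Fin J => (Vt.x j : Vt s J n))).card ≤ J :=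
    Finset.card_image_le.trans (by simp)
  have h3 : ({Vt.ks, Vt.y, Vt.a ⟨0, by omega⟩, Vt.a ⟨n - 1, by omega⟩, Vt.b ⟨n - 1, by omega⟩} :
      Finset (Vt s J n)).card ≤ 5 := Finset.card_le_five
  omega

/-- middle clique -/
noncomputable def Am (s J n : ℕ) : Finset (Vt s J n) :=
  univ.filter (fun v => inR v ∧ ∃ i, v = Vt.a i)

lemma Am_card (hn : 3 ≤ n) : (Am s J n).card = n - 2 := by
  have h : Am s J n = (univ : Finset (Fin (n - 2))).image
      (fun t => (Vt.a ⟨t.val + 1, by omega⟩ : Vt s J n)) := by
    ext v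
    simp only [Am, mem_filter, mem_univ, true_and, mem_image]
    constructor
    · rintro ⟨h, i, rfl⟩
      simp only [inR] at h
      exact ⟨⟨i.val - 1, by omega⟩, by
        simp only [Vt.a.injEq, Fin.ext_iff]; omega⟩
    · rintro ⟨t, rfl⟩
      have := t.2
      exact ⟨by simp only [inR]; omega, _, rfl⟩
  rw [h, Finset.card_image_of_injective]
  · simp
  · intro t t' h
    simp only [Vt.a.injEq, Fin.ext_iff] at h
    exact Fin.ext (by omega)

lemma Am_sub : Am s J n ⊆ RR s J n := by
  intro v hv
  rw [Am, mem_filter] at hv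
  exact mem_RR.2 hv.2.1

lemma Am_cl : ∀ c ∈ Am s J n, ∀ c' ∈ Am s J n, c ≠ c' → (Gr δ s J n).Adj c c' := by
  intro c hc c' hc' hne
  rw [Am, mem_filter] at hc hc'
  obtain ⟨-, -, i, rfl⟩ := hc
  obtain ⟨-, -, i', rfl⟩ := hc'
  rw [Gr_adj, adj]
  rintro rfl
  exact hne rfl

end H16.FI
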