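import Mathlib
import Pool.Agent.H16.FI.Defs
import Pool.Agent.H16.FI.G1
import Pool.Agent.H16.FI.G2
import Pool.Agent.H16.FI.G3

set_option linter.unusedSectionVars false

namespace H16.FI

open Function Finset
open scoped Classical

variable {δ s J n : ℕ} {α : Type} [Fintype α]

lemma mem_I {β : Type} [Fintype β] {F : SimpleGraph α} {G : SimpleGraph β} {v : β} :
    I F G v = ((Cop F G).filter (fun φ => ∃ a, φ a = v)).card := by
  unfold I
  congr

lemma I_le {β : Type} [Fintype β] {F : SimpleGraph α} {G : SimpleGraph β} {v : β}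
    {S : Finset (α → β)} (h : ∀ φ ∈ Cop F G, ∀ z, φ z = v → φ ∈ S) : I F G v ≤ S.card := by
  rw [mem_I]
  refine Finset.card_le_card fun φ hφ => ?_
  rw [mem_filter] at hφ
  obtain ⟨hφ, z, hz⟩ := hφ
  exact h φ hφ z hz

lemma TT_le_I {β : Type} [Fintype β] {F : SimpleGraph α} {G : SimpleGraph β} {R U : Finset β}
    {δ : ℕ} {w : β} : (TT F G R δ w U).card ≤ I F G w := by
  rw [mem_I]
  refine Finset.card_le_card fun φ hφ => ?_
  rw [mem_TT] at hφ
  obtain ⟨z, -, hz⟩ := hφ
  rw [mem_TZ] at hz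
  rw [mem_filter]
  exact ⟨hz.1, z, hz.2.1⟩

lemma cliq {F : SimpleGraph α} {u v w : Vt s J n} {z0 z1 : α}
    (h01 : F.Adj z0 z1) (hs : Fintype.card α ≤ s)
    (hv : ∀ q, adj δ v (.k q)) (hw : ∀ q, adj δ w (.k q)) (hvw : adj δ v w)
    (hu : ∀ q, u ≠ .k q) (huv : u ≠ v) (huw : u ≠ w) (hn : ¬ adj δ u w) :
    0 < (D F (Gr δ s J n) v u).card := by
  have hvw' : v ≠ w := by
    rintro rfl
    exact (Gr δ s J n).loopless.irrefl _ hvw
  refine clique_D (C := insert v (insert w (Kp s J n))) h01 ?_ ?_ (by simp) (by simp) hvw' ?_ hn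
  · intro c hc c' hc' hne
    simp only [mem_insert, mem_Kp] at hc hc'
    rw [Gr_adj]
    rcases hc with rfl | rfl | ⟨q, rfl⟩ <;> rcases hc' with rfl | rfl | ⟨q', rfl⟩
    · exact absurd rfl hne
    · exact hvw
    · exact hv _
    · exact adj_symm _ _ _ hvw
    · exact absurd rfl hne
    · exact hw _
    · exact adj_symm _ _ _ (hv _)
    · exact adj_symm _ _ _ (hw _)
    · show q ≠ q'
      rintro rfl
      exact hne rfl
  · refine hs.trans ?_
    have h1 : (Kp s J n).card ≤ (insert v (insert w (Kp s J n))).card :=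
      Finset.card_le_card (fun v hv => by simp [hv])
    rwa [Kp_card] at h1
  · simp only [mem_insert, mem_Kp, not_or]
    refine ⟨huv, huw, ?_⟩
    rintro ⟨q, rfl⟩
    exact hu q rfl

/-- C1 -/
lemma c1 {F : SimpleGraph α} {z0 z1 : α} (h01 : F.Adj z0 z1) (hs : Fintype.card α ≤ s)
    {j j' : Fin n} (h : j < j') : I F (Gr δ s J n) (.b j') < I F (Gr δ s J n) (.b j) := by
  apply I_lt
  rw [D_card_zero]
  · refine cliq (w := .a j) h01 hs (fun _ => trivial) (fun _ => trivial) (le_refl j.val)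
      (fun q => by simp) ?_ (by simp) ?_
    · intro h'
      simp only [Vt.b.injEq] at h'
      exact h.ne h'.symm
    · show ¬ (j'.val ≤ j.val)
      exact not_le.2 h
  · intro w hw hne
    rw [Gr_adj] at hw ⊢
    cases w with
    | a i =>
      have : j'.val ≤ i.val := hw
      exact le_trans (le_of_lt (show j.val < j'.val from h)) this
    | _ => exact hw

/-- C2 -/
lemma c2 {F : SimpleGraph α} {z0 z1 : α} (h01 : F.Adj z0 z1) (hs : Fintype.card α ≤ s)
    (hn : 0 < n) : I F (Gr δ s J n) (.b ⟨0, hn⟩) < I F (Gr δ s J n) (.a ⟨0, hn⟩) := by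
  apply I_lt
  rw [D_card_zero]
  · refine cliq (w := .y) h01 hs (fun _ => trivial) (fun _ => trivial) rfl
      (fun q => by simp) (by simp) (by simp) ?_
    exact fun h => h
  · intro w hw hne
    rw [Gr_adj] at hw ⊢
    cases w with
    | a i =>
      show (⟨0, hn⟩ : Fin n) ≠ i
      rintro rfl
      exact hne rfl
    | b i => exact absurd hw (fun h => h)
    | x i => exact hw
    | y => exact absurd hw (fun h => h)
    | _ => trivial

/-- C4 -/
lemma c4 {F : SimpleGraph α} {z0 z1 : α} (h01 : F.Adj z0 z1) (hs : Fintype.card α ≤ s)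
    {i i' : Fin n} (h1 : 1 ≤ i.val) (h : i < i') :
    I F (Gr δ s J n) (.a i) < I F (Gr δ s J n) (.a i') := by
  apply I_lt
  rw [D_card_zero]
  · refine cliq (w := .b i') h01 hs (fun _ => trivial) (fun _ => trivial) (le_refl i'.val)
      (fun q => by simp) ?_ (by simp) ?_
    · intro h'
      simp only [Vt.a.injEq] at h'
      exact h.ne h'
    · show ¬ (i'.val ≤ i.val)
      exact not_le.2 h
  · intro w hw hne
    rw [Gr_adj] at hw ⊢
    cases w with
    | a m =>
      show i' ≠ m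
      rintro rfl
      exact hne rfl
    | b m =>
      have : m.val ≤ i.val := hw
      exact le_trans this (le_of_lt (show i.val < i'.val from h))
    | x m => exact hw
    | y =>
      have : i.val = 0 := hw
      omega
    | _ => trivial

lemma good_sub {w : Vt s J n} {U : Finset (Vt s J n)}
    (hw : ¬ inR w) (hU : ∀ u ∈ U, (∃ q, u = .k q) ∨ u = .ks ∨ ∃ i : Fin n, u = .a i ∧ i.val + 1 = n)
    (hwU : ∀ u ∈ U, adj δ w u) : Good (Gr δ s J n) (RR s J n) w U where
  wR := fun h => hw (mem_RR.1 h)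
  UR := by
    intro u hu r hr
    rw [mem_RR] at hr
    rw [Gr_adj]
    rcases hU u hu with ⟨q, rfl⟩ | rfl | ⟨i, rfl, hi⟩ <;> cases r with
    | a m =>
      first
      | trivial
      | (simp only [inR] at hr
         show i ≠ m
         rintro rfl
         omega)
    | b m =>
      first
      | trivial
      | (simp only [inR] at hr
         show m.val ≤ i.val
         omega)
    | _ => exact absurd hr (fun h => h)
  UU := by
    intro u hu u' hu' hne
    rw [Gr_adj]
    rcases hU u hu with ⟨q, rfl⟩ | rfl | ⟨i, rfl, hi⟩ <;>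
      rcases hU u' hu' with ⟨q', rfl⟩ | rfl | ⟨i', rfl, hi'⟩
    · show q ≠ q'
      rintro rfl
      exact hne rfl
    · trivial
    · trivial
    · trivial
    · exact absurd rfl hne
    · trivial
    · trivial
    · trivial
    · show i ≠ i'
      rintro rfl
      exact hne rfl
  wU := hwU

lemma good_x (j : Fin J) : Good (Gr δ s J n) (RR s J n) (.x j) (NN δ s J n j) := by
  apply good_sub
  · exact fun h => h
  · intro u hu
    rw [mem_NN] at hu
    cases u with
    | k q => exact Or.inl ⟨q, rfl⟩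
    | ks => exact Or.inr (Or.inl rfl)
    | _ => exact absurd hu (fun h => h)
  · intro u hu
    exact mem_NN.1 hu

lemma good_y : Good (Gr δ s J n) (RR s J n) .y (Kp s J n) := by
  apply good_sub
  · exact fun h => h
  · intro u hu
    rw [mem_Kp] at hu
    obtain ⟨q, rfl⟩ := hu
    exact Or.inl ⟨q, rfl⟩
  · intro u hu
    rw [mem_Kp] at hu
    obtain ⟨q, rfl⟩ := hu
    trivial

/-- the number of copies with many near vertices -/
noncomputable abbrev EE (F : SimpleGraph α) (δ s J n : ℕ) : ℕ :=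
  (Eb F (Gr δ s J n) (ZZ s J n) (δ + 2)).card

/-- the main number -/
noncomputable abbrev MM (F : SimpleGraph α) (δ s J n : ℕ) : ℕ :=
  M F (Gr δ s J n) (RR s J n) δ

lemma ub_x {F : SimpleGraph α} (hδ : ∀ z, δ ≤ dg F z) {j : Fin J} {φ : α → Vt s J n} {z : α}
    (hφ : φ ∈ Cop F (Gr δ s J n)) (hz : φ z = .x j) :
    (dg F z = δ ∧ φ ∈ TZ F (Gr δ s J n) (RR s J n) (.x j) (NN δ s J n j) z) ∨
      φ ∈ Eb F (Gr δ s J n) (ZZ s J n) (δ + 2) := by
  refine ub_lemma hδ ?_ ?_ ?_ ?_ hφ hz
  · intro b hb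
    rw [mem_ZZ, not_not] at hb
    exact mem_RR.2 hb
  · exact mem_ZZ.2 (fun h => h)
  · intro u hu
    exact mem_NN.2 hu
  · intro u hu
    rw [mem_NN] at hu
    rw [mem_ZZ]
    cases u with
    | a i => exact absurd hu (fun h => h)
    | b i => exact absurd hu (fun h => h)
    | _ => exact fun h => h

lemma Ix_le {F : SimpleGraph α} (hδ : ∀ z, δ ≤ dg F z) (hs : s = δ + J) (j : Fin J) :
    I F (Gr δ s J n) (.x j) ≤ (δ + j.val).descFactorial δ * MM F δ s J n + EE F δ s J n := by
  have hsub : ∀ φ ∈ Cop F (Gr δ s J n), ∀ z, φ z = .x j → φ ∈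
      TT F (Gr δ s J n) (RR s J n) δ (.x j) (NN δ s J n j) ∪
        Eb F (Gr δ s J n) (ZZ s J n) (δ + 2) := by
    intro φ hφ z hz
    rw [mem_union]
    rcases ub_x hδ hφ hz with h | h
    · left
      rw [mem_TT]
      exact ⟨z, h⟩
    · exact Or.inr h
  refine (I_le hsub).trans ((Finset.card_union_le _ _).trans ?_)
  refine Nat.add_le_add_right ?_ _
  have := TT_le F (Gr δ s J n) (RR s J n) δ (.x j) (NN δ s J n j)
  rwa [NN_card hs] at this

lemma Ix_ge {F : SimpleGraph α} (hs : s = δ + J) (j : Fin J) :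
    (δ + j.val).descFactorial δ * MM F δ s J n ≤ I F (Gr δ s J n) (.x j) := by
  refine le_trans ?_ (TT_le_I (R := RR s J n) (U := NN δ s J n j) (δ := δ))
  have := TT_ge F (Gr δ s J n) (RR s J n) δ (.x j) (NN δ s J n j) (good_x j)
  rwa [NN_card hs] at this

lemma Iy_ge {F : SimpleGraph α} :
    s.descFactorial δ * MM F δ s J n ≤ I F (Gr δ s J n) .y := by
  refine le_trans ?_ (TT_le_I (R := RR s J n) (U := Kp s J n) (δ := δ))
  have := TT_ge F (Gr δ s J n) (RR s J n) δ .y (Kp s J n) good_y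
  rwa [Kp_card] at this

/-- step of the falling factorial -/
lemma Pstep (e m : ℕ) : (m + 1).descFactorial (e + 1) =
    m.descFactorial (e + 1) + (e + 1) * m.descFactorial e := by
  rw [Nat.succ_descFactorial_succ, Nat.descFactorial_succ]
  by_cases h : e ≤ m
  · rw [← add_mul]
    congr 1
    omega
  · push Not at h
    rw [Nat.descFactorial_of_lt h]
    simp

lemma Pstep' {δ m : ℕ} (hδ : 1 ≤ δ) : (m + 1).descFactorial δ =
    m.descFactorial δ + δ * m.descFactorial (δ - 1) := by
  obtain ⟨e, rfl⟩ : ∃ e, δ = e + 1 := ⟨δ - 1, by omega⟩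
  exact Pstep e m

lemma Plt {δ m : ℕ} (hδ : 1 ≤ δ) (hm : δ ≤ m + 1) :
    m.descFactorial δ < (m + 1).descFactorial δ := by
  rw [Pstep' hδ]
  have : 0 < m.descFactorial (δ - 1) := Nat.descFactorial_pos.2 (by omega)
  have : 0 < δ * m.descFactorial (δ - 1) := Nat.mul_pos (by omega) this
  omega

lemma Pmono {δ m m' : ℕ} (h : m ≤ m') : m.descFactorial δ ≤ m'.descFactorial δ :=
  Nat.descFactorial_le _ h

lemma Plt' {δ m m' : ℕ} (hδ : 1 ≤ δ) (hm : δ ≤ m + 1) (h : m < m') :
    m.descFactorial δ < m'.descFactorial δ :=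
  (Plt hδ hm).trans_le (Pmono h)

/-- x-comparisons -/
lemma cx {F : SimpleGraph α} (hδ : ∀ z, δ ≤ dg F z) (hd : 1 ≤ δ) (hs : s = δ + J)
    (hM : EE F δ s J n < MM F δ s J n) {j j' : Fin J} (h : j < j') :
    I F (Gr δ s J n) (.x j) < I F (Gr δ s J n) (.x j') := by
  refine lt_of_le_of_lt (Ix_le hδ hs j) (lt_of_lt_of_le ?_ (Ix_ge hs j'))
  have h1 : (δ + j.val).descFactorial δ + 1 ≤ (δ + j'.val).descFactorial δ :=
    Plt' hd (by omega) (by have : j.val < j'.val := h; omega)
  calc (δ + j.val).descFactorial δ * MM F δ s J n + EE F δ s J n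
      < (δ + j.val).descFactorial δ * MM F δ s J n + MM F δ s J n := by omega
    _ = ((δ + j.val).descFactorial δ + 1) * MM F δ s J n := by ring
    _ ≤ _ := Nat.mul_le_mul_right _ h1

lemma cxy {F : SimpleGraph α} (hδ : ∀ z, δ ≤ dg F z) (hd : 1 ≤ δ) (hs : s = δ + J)
    (hM : EE F δ s J n < MM F δ s J n) (j : Fin J) :
    I F (Gr δ s J n) (.x j) < I F (Gr δ s J n) .y := by
  refine lt_of_le_of_lt (Ix_le hδ hs j) (lt_of_lt_of_le ?_ Iy_ge)
  have hj := j.2
  have h1 : (δ + j.val).descFactorial δ + 1 ≤ s.descFactorial δ :=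
    Plt' hd (by omega) (by omega)
  calc (δ + j.val).descFactorial δ * MM F δ s J n + EE F δ s J n
      < (δ + j.val).descFactorial δ * MM F δ s J n + MM F δ s J n := by omega
    _ = ((δ + j.val).descFactorial δ + 1) * MM F δ s J n := by ring
    _ ≤ _ := Nat.mul_le_mul_right _ h1

end H16.FI
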