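import Mathlib
import Pool.Agent.H16.FI.Defs
import Pool.Agent.H16.FI.G1
import Pool.Agent.H16.FI.G2
import Pool.Agent.H16.FI.G3
import Pool.Agent.H16.FI.G4

set_option linter.unusedSectionVars false

namespace H16.FI

open Function Finset
open scoped Classical

section gen

variable {α β : Type} [Fintype α] [Fintype β]

lemma TT_sdiff_mem {F : SimpleGraph α} {G : SimpleGraph β} {R U U' : Finset β} {δ : ℕ} {w : β}
    {φ : α → β} (h : φ ∈ TT F G R δ w U) (h' : φ ∉ TT F G R δ w U') :
    ∃ z, dg F z = δ ∧ φ ∈ TZ F G R w U z ∧ ∃ a, F.Adj z a ∧ φ a ∈ U ∧ φ a ∉ U' := by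
  rw [mem_TT] at h
  obtain ⟨z, hz, hφ⟩ := h
  refine ⟨z, hz, hφ, ?_⟩
  by_contra hcon
  push Not at hcon
  apply h'
  rw [mem_TT]
  refine ⟨z, hz, ?_⟩
  rw [mem_TZ] at hφ ⊢
  exact ⟨hφ.1, hφ.2.1, fun a ha => hcon a ha (hφ.2.2.1 a ha), hφ.2.2.2⟩

lemma D_ge_TT {F : SimpleGraph α} {G : SimpleGraph β} {R U U' : Finset β} {δ : ℕ} {w v u : β}
    (hG : Good G R w U)
    (h : ∀ φ z a, dg F z = δ → φ ∈ TZ F G R w U z → F.Adj z a → φ a ∈ U → φ a ∉ U' →
      φ ∈ D F G v u) :
    (U.card.descFactorial δ - U'.card.descFactorial δ) * M F G R δ ≤ (D F G v u).card := by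
  refine (TT_sdiff_ge F G R δ w U U' hG).trans (Finset.card_le_card fun φ hφ => ?_)
  rw [mem_sdiff] at hφ
  obtain ⟨z, hz, hφz, a, ha, hau, hau'⟩ := TT_sdiff_mem hφ.1 hφ.2
  exact h φ z a hz hφz ha hau hau'

lemma TZ_avoid {F : SimpleGraph α} {G : SimpleGraph β} {R U : Finset β} {w u : β} {z : α}
    {φ : α → β} (h : φ ∈ TZ F G R w U z) (hw : w ≠ u) (hU : u ∉ U) (hR : u ∉ R) :
    ∀ a, φ a ≠ u := by
  rw [mem_TZ] at h
  intro a ha
  by_cases h1 : a = z
  · rw [h1, h.2.1] at ha
    exact hw ha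
  · by_cases h2 : F.Adj z a
    · exact hU (ha ▸ h.2.2.1 a h2)
    · exact hR (ha ▸ h.2.2.2 a h1 h2)

end gen

variable {δ s J n : ℕ} {α : Type} [Fintype α]

/-- C3 -/
lemma c3 {F : SimpleGraph α} {z0 z1 : α} (h01 : F.Adj z0 z1) (hδ : ∀ z, δ ≤ dg F z)
    (hd : 2 ≤ δ) (hn : 3 ≤ n)
    (hE3 : (Eb F (Gr δ s J n) (ZZ s J n) 3).card <
      (n - 2).descFactorial (Fintype.card α - 2)) :
    I F (Gr δ s J n) (.a ⟨0, by omega⟩) < I F (Gr δ s J n) (.a ⟨1, by omega⟩) := by
  apply I_lt
  refine lt_of_le_of_lt (Finset.card_le_card (t := Eb F (Gr δ s J n) (ZZ s J n) 3) ?_)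
    (lt_of_lt_of_le hE3 ?_)
  · intro φ hφ
    rw [mem_D] at hφ
    obtain ⟨hc, hu, a, b, hab, ha, hnb⟩ := hφ
    have hc' := mem_Cop.1 hc
    have hadj := hc'.2 a b hab
    rw [ha] at hadj
    have hub := hu b
    have hy : φ b = .y := by
      revert hadj hnb hub
      rw [Gr_adj, Gr_adj]
      cases hv : φ b with
      | k q => intro h _ _; exact absurd trivial h
      | ks => intro h _ _; exact absurd trivial h
      | a i =>
        intro h _ h'
        refine absurd (fun he => h' ?_) h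
        rw [he]
      | b j =>
        intro h' h _
        have h1 : j.val ≤ 0 := h
        exact absurd (show j.val ≤ 1 by omega) h'
      | x j => intro _ h _; exact absurd h (fun h => h)
      | y => intros; rfl
    refine Eb_of_dg (z := b) (x := .y) ?_ ?_ hc hy ?_
    · exact mem_ZZ.2 (fun h => h)
    · intro u hu
      rw [Gr_adj] at hu
      rw [mem_ZZ]
      cases u with
      | a i =>
        have h1 : i.val = 0 := hu
        simp only [inR]
        omega
      | b i => exact absurd hu (fun h => h)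
      | _ => exact fun h => h
    · have := hδ b
      omega
  · let A' : Finset (Vt s J n) := (univ : Finset (Fin (n - 2))).image
      (fun t => (Vt.a ⟨t.val + 2, by omega⟩ : Vt s J n))
    have hcard : A'.card = n - 2 := by
      rw [Finset.card_image_of_injective]
      · simp
      · intro t t' h
        simp only [Vt.a.injEq, Fin.ext_iff] at h
        exact Fin.ext (by omega)
    have hmem : ∀ c ∈ A', ∃ i : Fin n, 2 ≤ i.val ∧ c = .a i := by
      intro c hc
      obtain ⟨t, -, rfl⟩ := Finset.mem_image.1 hc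
      exact ⟨_, by show 2 ≤ t.val + 2; omega, rfl⟩
    rw [← hcard]
    refine D_ge_inj (w := .b ⟨1, by omega⟩) h01 ?_ ?_ ?_ ?_ ?_ ?_ ?_ ?_
    · intro c hc c' hc' hne
      obtain ⟨i, hi, rfl⟩ := hmem c hc
      obtain ⟨i', hi', rfl⟩ := hmem c' hc'
      show i ≠ i'
      rintro rfl
      exact hne rfl
    · intro c hc
      obtain ⟨i, hi, rfl⟩ := hmem c hc
      show (⟨1, _⟩ : Fin n) ≠ i
      intro h
      have h2 := congrArg Fin.val h
      simp only at h2
      omega
    · intro c hc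
      obtain ⟨i, hi, rfl⟩ := hmem c hc
      show 1 ≤ i.val
      omega
    · show (1 : ℕ) ≤ 1
      exact le_refl _
    · intro h
      obtain ⟨i, hi, h2⟩ := hmem _ h
      simp only [Vt.a.injEq, Fin.ext_iff] at h2
      omega
    · simp
    · simp
    · show ¬ ((1 : ℕ) ≤ 0)
      omega

/-- C5 -/
lemma c5 {F : SimpleGraph α} (hd : 2 ≤ δ) (hs : s = δ + J)
    (hJ : 2 ≤ J) (hn : 3 ≤ n) (hM : 0 < MM F δ s J n) :
    I F (Gr δ s J n) (.a ⟨n - 1, by omega⟩) < I F (Gr δ s J n) .ks := by
  apply I_lt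
  rw [D_card_zero]
  · refine lt_of_lt_of_le ?_ (D_ge_TT (R := RR s J n) (U := NN δ s J n ⟨1, by omega⟩)
      (U' := (NN δ s J n ⟨1, by omega⟩).erase .ks) (δ := δ) (good_x _) ?_)
    · rw [Finset.card_erase_of_mem, NN_card hs]
      · apply Nat.mul_pos _ hM
        have := Plt (δ := δ) (m := δ) (by omega) (by omega)
        show 0 < (δ + 1).descFactorial δ - (δ + 1 - 1).descFactorial δ
        rw [Nat.add_sub_cancel]
        omega
      · rw [mem_NN]
        show (1 : ℕ) ≤ 1 ∧ 1 + 1 ≤ δ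
        omega
    · intro φ z a hz hφ haz hU hU'
      have hks : φ a = .ks := by
        by_contra h
        exact hU' (Finset.mem_erase.2 ⟨h, hU⟩)
      have hφ' := mem_TZ.1 hφ
      rw [mem_D]
      refine ⟨hφ'.1, TZ_avoid hφ (by simp) ?_ ?_, a, z, haz.symm, hks, ?_⟩
      · rw [mem_NN]
        exact fun h => h
      · rw [mem_RR]
        simp only [inR]
        omega
      · rw [hφ'.2.1]
        exact fun h => h
  · intro w hw hne
    rw [Gr_adj] at hw ⊢
    cases w with
    | ks => exact absurd rfl hne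
    | x j => exact absurd hw (fun h => h)
    | y =>
      have : n - 1 = 0 := hw
      omega
    | _ => trivial

lemma Kp_card' : (Kp s J n).card = s := Kp_card

lemma ub_y {F : SimpleGraph α} (hδ : ∀ z, δ ≤ dg F z) (hn : 3 ≤ n) {φ : α → Vt s J n} {z : α}
    (hφ : φ ∈ Cop F (Gr δ s J n)) (hz : φ z = .y) :
    (dg F z = δ ∧ φ ∈ TZ F (Gr δ s J n) (RR s J n) .y
        (insert (.a ⟨0, by omega⟩) (Kp s J n)) z) ∨
      φ ∈ Eb F (Gr δ s J n) (ZZ s J n) (δ + 2) := by
  refine ub_lemma hδ ?_ ?_ ?_ ?_ hφ hz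
  · intro b hb
    rw [mem_ZZ, not_not] at hb
    exact mem_RR.2 hb
  · exact mem_ZZ.2 (fun h => h)
  · intro u hu
    rw [Gr_adj] at hu
    rw [mem_insert, mem_Kp]
    cases u with
    | k q => exact Or.inr ⟨q, rfl⟩
    | a i =>
      left
      have : i.val = 0 := hu
      simp only [Vt.a.injEq, Fin.ext_iff]
      exact this
    | _ => exact absurd hu (fun h => h)
  · intro u hu
    rw [mem_insert, mem_Kp] at hu
    rw [mem_ZZ]
    rcases hu with rfl | ⟨q, rfl⟩
    · simp [inR]
    · exact fun h => h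

/-- C9 -/
lemma c9 {F : SimpleGraph α} (hδ : ∀ z, δ ≤ dg F z) (hd : 2 ≤ δ) (hs : s = δ + J)
    (hn : 3 ≤ n) (hM : EE F δ s J n < MM F δ s J n) :
    I F (Gr δ s J n) .y < I F (Gr δ s J n) (.b ⟨n - 1, by omega⟩) := by
  apply I_lt
  have ha0 : (Vt.a ⟨0, by omega⟩ : Vt s J n) ∉ Kp s J n := by simp [mem_Kp]
  have hks : (Vt.ks : Vt s J n) ∉ Kp s J n := by simp [mem_Kp]
  have hal : (Vt.a ⟨n - 1, by omega⟩ : Vt s J n) ∉ insert Vt.ks (Kp s J n) := by simp [mem_Kp]
  have hup : (D F (Gr δ s J n) .y (.b ⟨n - 1, by omega⟩)).card ≤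
      ((s + 1).descFactorial δ - s.descFactorial δ) * MM F δ s J n + EE F δ s J n := by
    have h1 : D F (Gr δ s J n) .y (.b ⟨n - 1, by omega⟩) ⊆
        TH F (Gr δ s J n) (RR s J n) δ .y (insert (.a ⟨0, by omega⟩) (Kp s J n))
          (.a ⟨0, by omega⟩) ∪ Eb F (Gr δ s J n) (ZZ s J n) (δ + 2) := by
      intro φ hφ
      rw [mem_D] at hφ
      obtain ⟨hc, hu, a, b, hab, ha, hnb⟩ := hφ
      have hc' := mem_Cop.1 hc
      have hadj := hc'.2 a b hab
      rw [ha] at hadj
      have hy : φ b = .a ⟨0, by omega⟩ := by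
        revert hadj hnb
        rw [Gr_adj, Gr_adj]
        cases hv : φ b with
        | k q => intro h _; exact absurd trivial h
        | a i =>
          intro _ h
          have : i.val = 0 := h
          simp only [Vt.a.injEq, Fin.ext_iff]
          exact this
        | _ => intro _ h; exact absurd h (fun h => h)
      rw [mem_union]
      rcases ub_y hδ hn hc ha with ⟨h1, h2⟩ | h
      · left
        rw [mem_TH]
        exact ⟨a, h1, h2, b, hab, hy⟩
      · exact Or.inr h
    refine (Finset.card_le_card h1).trans ((Finset.card_union_le _ _).trans ?_)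
    refine Nat.add_le_add_right ?_ _
    have h2 := TH_le F (Gr δ s J n) (RR s J n) δ .y (insert (.a ⟨0, by omega⟩) (Kp s J n))
      (κ := .a ⟨0, by omega⟩) (Finset.mem_insert_self _ _)
    have h3 : (insert (Vt.a ⟨0, by omega⟩) (Kp s J n)).card = s + 1 := by
      rw [Finset.card_insert_of_notMem ha0, Kp_card]
    rw [h3] at h2
    exact h2
  have hlow : ((s + 2).descFactorial δ - s.descFactorial δ) * MM F δ s J n ≤
      (D F (Gr δ s J n) (.b ⟨n - 1, by omega⟩) .y).card := by
    have h3 : (insert (Vt.a ⟨n - 1, by omega⟩) (insert Vt.ks (Kp s J n))).card = s + 2 := by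
      rw [Finset.card_insert_of_notMem hal, Finset.card_insert_of_notMem hks, Kp_card]
    have h4 := D_ge_TT (F := F) (G := Gr δ s J n) (R := RR s J n)
      (U := insert (Vt.a ⟨n - 1, by omega⟩) (insert Vt.ks (Kp s J n)))
      (U' := Kp s J n) (δ := δ) (w := .b ⟨n - 1, by omega⟩) (v := .b ⟨n - 1, by omega⟩) (u := .y)
      ?_ ?_
    · rw [h3, Kp_card] at h4
      exact h4
    · apply good_sub
      · simp only [inR]
        omega
      · intro u hu
        rw [mem_insert, mem_insert, mem_Kp] at hu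
        rcases hu with rfl | rfl | ⟨q, rfl⟩
        · exact Or.inr (Or.inr ⟨_, rfl, by show n - 1 + 1 = n; omega⟩)
        · exact Or.inr (Or.inl rfl)
        · exact Or.inl ⟨q, rfl⟩
      · intro u hu
        rw [mem_insert, mem_insert, mem_Kp] at hu
        rcases hu with rfl | rfl | ⟨q, rfl⟩
        · exact le_refl (n - 1)
        · trivial
        · trivial
    · intro φ z a hz hφ haz hU hU'
      have hφ' := mem_TZ.1 hφ
      rw [mem_D]
      refine ⟨hφ'.1, TZ_avoid hφ (by simp) ?_ ?_, z, a, haz, hφ'.2.1, ?_⟩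
      · simp [mem_Kp]
      · rw [mem_RR]
        exact fun h => h
      · rw [mem_insert, mem_insert] at hU
        rcases hU with h | h | h
        · rw [h]
          show ¬ (n - 1 = 0)
          omega
        · rw [h]
          exact fun h => h
        · exact absurd h hU'
  refine lt_of_le_of_lt hup (lt_of_lt_of_le ?_ hlow)
  have h1 := Plt (δ := δ) (m := s) (by omega) (by omega)
  have h2 := Plt (δ := δ) (m := s + 1) (by omega) (by omega)
  have h3 : (s + 1).descFactorial δ - s.descFactorial δ + 1 ≤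
      (s + 2).descFactorial δ - s.descFactorial δ := by
    have : (s + 1 + 1).descFactorial δ = (s + 2).descFactorial δ := rfl
    omega
  calc ((s + 1).descFactorial δ - s.descFactorial δ) * MM F δ s J n + EE F δ s J n
      < ((s + 1).descFactorial δ - s.descFactorial δ) * MM F δ s J n + MM F δ s J n := by omega
    _ = ((s + 1).descFactorial δ - s.descFactorial δ + 1) * MM F δ s J n := by ring
    _ ≤ _ := Nat.mul_le_mul_right _ h3

end H16.FI
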