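import Mathlib
import Pool.Agent.H16.FI.Defs
import Pool.Agent.H16.FI.G1
import Pool.Agent.H16.FI.G2
import Pool.Agent.H16.FI.G3
import Pool.Agent.H16.FI.G4
import Pool.Agent.H16.FI.G5

set_option linter.unusedSectionVars false

namespace H16.FI

open Function Finset
open scoped Classical

variable {δ s J n : ℕ} {α : Type} [Fintype α]

/-- C6 -/
lemma c6 {F : SimpleGraph α} (hδ : ∀ z, δ ≤ dg F z) (hd : 2 ≤ δ) (hs : s = δ + J)
    (hJ : δ * (2 * δ).descFactorial δ ≤ J)
    (hM : EE F δ s J n < MM F δ s J n) (q : Fin s) :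
    I F (Gr δ s J n) .ks < I F (Gr δ s J n) (.k q) := by
  apply I_lt
  have hup : (D F (Gr δ s J n) .ks (.k q)).card ≤
      (δ * (2 * δ).descFactorial δ) * MM F δ s J n + EE F δ s J n := by
    let S0 : Finset (Fin J) := univ.filter (fun j => 1 ≤ j.val ∧ j.val + 1 ≤ δ)
    have hS0 : S0.card ≤ δ := by
      have : S0.card ≤ (Finset.range δ).card := by
        refine Finset.card_le_card_of_injOn (fun j => j.val) ?_ ?_
        · intro j hj
          rw [Finset.mem_coe, mem_filter] at hj
          rw [Finset.mem_coe, Finset.mem_range]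
          show j.val < δ
          omega
        · intro j _ j' _ h
          exact Fin.ext h
      simpa using this
    have h1 : D F (Gr δ s J n) .ks (.k q) ⊆
        (S0.biUnion fun j => TT F (Gr δ s J n) (RR s J n) δ (.x j) (NN δ s J n j)) ∪
          Eb F (Gr δ s J n) (ZZ s J n) (δ + 2) := by
      intro φ hφ
      rw [mem_D] at hφ
      obtain ⟨hc, hu, a, b, hab, ha, hnb⟩ := hφ
      have hc' := mem_Cop.1 hc
      have hadj := hc'.2 a b hab
      rw [ha] at hadj
      have hub := hu b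
      have hy : ∃ j, j ∈ S0 ∧ φ b = .x j := by
        revert hadj hnb hub
        rw [Gr_adj, Gr_adj]
        cases hv : φ b with
        | k p =>
          intro h _ h'
          refine absurd (fun he => h' ?_) h
          rw [he]
        | ks => intro h _ _; exact absurd trivial h
        | a i => intro h _ _; exact absurd trivial h
        | b j => intro h _ _; exact absurd trivial h
        | x j =>
          intro _ h _
          exact ⟨j, mem_filter.2 ⟨mem_univ _, h⟩, rfl⟩
        | y => intro h _ _; exact absurd trivial h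
      obtain ⟨j, hj, hbj⟩ := hy
      rw [mem_union]
      rcases ub_x hδ hc hbj with h | h
      · left
        rw [mem_biUnion]
        exact ⟨j, hj, mem_TT.2 ⟨b, h⟩⟩
      · exact Or.inr h
    refine (Finset.card_le_card h1).trans ((Finset.card_union_le _ _).trans ?_)
    refine Nat.add_le_add_right ?_ _
    refine Finset.card_biUnion_le.trans ?_
    have h2 : ∀ j ∈ S0, (TT F (Gr δ s J n) (RR s J n) δ (.x j) (NN δ s J n j)).card ≤
        (2 * δ).descFactorial δ * MM F δ s J n := by
      intro j hj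
      rw [mem_filter] at hj
      have h3 := TT_le F (Gr δ s J n) (RR s J n) δ (.x j) (NN δ s J n j)
      rw [NN_card hs] at h3
      refine h3.trans (Nat.mul_le_mul_right _ (Pmono ?_))
      omega
    refine (Finset.sum_le_card_nsmul _ _ _ h2).trans ?_
    rw [smul_eq_mul, ← mul_assoc]
    exact Nat.mul_le_mul_right _ (Nat.mul_le_mul_right _ hS0)
  have hlow : (J + 1) * MM F δ s J n ≤ (D F (Gr δ s J n) (.k q) .ks).card := by
    have hq : Vt.k q ∈ Kp s J n := mem_Kp.2 ⟨q, rfl⟩
    have h4 := D_ge_TT (F := F) (G := Gr δ s J n) (R := RR s J n)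
      (U := Kp s J n) (U' := (Kp s J n).erase (.k q)) (δ := δ) (w := .y) (v := .k q) (u := .ks)
      good_y ?_
    · rw [Finset.card_erase_of_mem hq, Kp_card] at h4
      refine le_trans (Nat.mul_le_mul_right _ ?_) h4
      obtain ⟨m, hm⟩ : ∃ m, s = m + 1 := ⟨s - 1, by omega⟩
      rw [hm, Nat.add_sub_cancel, Pstep' (by omega : 1 ≤ δ), Nat.add_sub_cancel_left]
      have h5 := Nat.pow_sub_le_descFactorial m (δ - 1)
      have h6 : m + 1 - (δ - 1) = J + 1 := by omega
      rw [h6] at h5
      have h7 : (J + 1) ^ 1 ≤ (J + 1) ^ (δ - 1) := Nat.pow_le_pow_right (by omega) (by omega)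
      rw [pow_one] at h7
      calc J + 1 ≤ m.descFactorial (δ - 1) := h7.trans h5
        _ = 1 * m.descFactorial (δ - 1) := (one_mul _).symm
        _ ≤ δ * m.descFactorial (δ - 1) := Nat.mul_le_mul_right _ (by omega)
    · intro φ z a hz hφ haz hU hU'
      have hφ' := mem_TZ.1 hφ
      have hka : φ a = .k q := by
        by_contra h
        exact hU' (Finset.mem_erase.2 ⟨h, hU⟩)
      rw [mem_D]
      refine ⟨hφ'.1, TZ_avoid hφ (by simp) ?_ ?_, a, z, haz.symm, hka, ?_⟩
      · simp [mem_Kp]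
      · rw [mem_RR]
        exact fun h => h
      · rw [hφ'.2.1]
        exact fun h => h
  refine lt_of_le_of_lt hup (lt_of_lt_of_le ?_ hlow)
  calc (δ * (2 * δ).descFactorial δ) * MM F δ s J n + EE F δ s J n
      < (δ * (2 * δ).descFactorial δ) * MM F δ s J n + MM F δ s J n := by omega
    _ = (δ * (2 * δ).descFactorial δ + 1) * MM F δ s J n := by ring
    _ ≤ _ := Nat.mul_le_mul_right _ (by omega)

/-- weight of `x j` -/
def vv (δ j : ℕ) : ℕ := (δ + j).descFactorial δ - (δ + j - 1).descFactorial δ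

/-- the `x j` adjacent to `k q`, not to `k q'` -/
noncomputable def SS (δ : ℕ) {s J : ℕ} (q q' : Fin s) : Finset (Fin J) :=
  univ.filter (fun j => kx δ q.val j.val ∧ ¬ kx δ q'.val j.val)

lemma mem_SS {q q' : Fin s} {j : Fin J} :
    j ∈ SS δ q q' ↔ kx δ q.val j.val ∧ ¬ kx δ q'.val j.val := by simp [SS]

lemma c7up {F : SimpleGraph α} (hδ : ∀ z, δ ≤ dg F z) (hs : s = δ + J)
    (q q' : Fin s) :
    (D F (Gr δ s J n) (.k q) (.k q')).card ≤
      (∑ j ∈ (SS δ q q' : Finset (Fin J)), vv δ j.val) * MM F δ s J n + EE F δ s J n := by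
  have h1 : D F (Gr δ s J n) (.k q) (.k q') ⊆
      ((SS δ q q' : Finset (Fin J)).biUnion fun j =>
        TH F (Gr δ s J n) (RR s J n) δ (.x j) (NN δ s J n j) (.k q)) ∪
        Eb F (Gr δ s J n) (ZZ s J n) (δ + 2) := by
    intro φ hφ
    rw [mem_D] at hφ
    obtain ⟨hc, hu, a, b, hab, ha, hnb⟩ := hφ
    have hc' := mem_Cop.1 hc
    have hadj := hc'.2 a b hab
    rw [ha] at hadj
    have hub := hu b
    have hy : ∃ j : Fin J, j ∈ (SS δ q q' : Finset (Fin J)) ∧ φ b = .x j := by
      revert hadj hnb hub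
      rw [Gr_adj, Gr_adj]
      cases hv : φ b with
      | k p =>
        intro h _ h'
        refine absurd (fun he => h' ?_) h
        rw [he]
      | ks => intro h _ _; exact absurd trivial h
      | a i => intro h _ _; exact absurd trivial h
      | b j => intro h _ _; exact absurd trivial h
      | x j =>
        intro h' h _
        exact ⟨j, mem_SS.2 ⟨h, h'⟩, rfl⟩
      | y => intro h _ _; exact absurd trivial h
    obtain ⟨j, hj, hbj⟩ := hy
    rw [mem_union]
    rcases ub_x hδ hc hbj with ⟨h, h'⟩ | h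
    · left
      rw [mem_biUnion]
      exact ⟨j, hj, mem_TH.2 ⟨b, h, h', a, hab.symm, ha⟩⟩
    · exact Or.inr h
  refine (Finset.card_le_card h1).trans ((Finset.card_union_le _ _).trans ?_)
  refine Nat.add_le_add_right ?_ _
  refine Finset.card_biUnion_le.trans ?_
  rw [Finset.sum_mul]
  refine Finset.sum_le_sum fun j hj => ?_
  rw [mem_SS] at hj
  have h3 := TH_le F (Gr δ s J n) (RR s J n) δ (.x j) (NN δ s J n j) (κ := .k q)
    (mem_NN.2 hj.1)
  rw [NN_card hs] at h3
  exact h3

lemma c7low {F : SimpleGraph α} (hs : s = δ + J) (q q' : Fin s) :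
    (∑ j ∈ (SS δ q q' : Finset (Fin J)), vv δ j.val) * MM F δ s J n ≤
      (D F (Gr δ s J n) (.k q) (.k q')).card := by
  let T : Fin J → Finset (α → Vt s J n) := fun j =>
    TT F (Gr δ s J n) (RR s J n) δ (.x j) (NN δ s J n j) \
      TT F (Gr δ s J n) (RR s J n) δ (.x j) ((NN δ s J n j).erase (.k q))
  have hmem : ∀ j φ, φ ∈ T j → ∃ z, dg F z = δ ∧
      φ ∈ TZ F (Gr δ s J n) (RR s J n) (.x j) (NN δ s J n j) z ∧ ∃ a, F.Adj z a ∧ φ a = .k q := by
    intro j φ hφ
    rw [mem_sdiff] at hφ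
    obtain ⟨z, hz, h1, a, ha, h2, h3⟩ := TT_sdiff_mem hφ.1 hφ.2
    refine ⟨z, hz, h1, a, ha, ?_⟩
    by_contra h
    exact h3 (Finset.mem_erase.2 ⟨h, h2⟩)
  have hsub : (SS δ q q' : Finset (Fin J)).biUnion T ⊆ D F (Gr δ s J n) (.k q) (.k q') := by
    intro φ hφ
    rw [mem_biUnion] at hφ
    obtain ⟨j, hj, hφ⟩ := hφ
    rw [mem_SS] at hj
    obtain ⟨z, hz, h1, a, ha, h2⟩ := hmem j φ hφ
    have h1' := mem_TZ.1 h1
    rw [mem_D]
    refine ⟨h1'.1, TZ_avoid h1 (by simp) ?_ ?_, a, z, ha.symm, h2, ?_⟩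
    · rw [mem_NN]
      exact hj.2
    · rw [mem_RR]
      exact fun h => h
    · rw [h1'.2.1]
      exact hj.2
  refine le_trans ?_ (Finset.card_le_card hsub)
  rw [Finset.card_biUnion]
  · rw [Finset.sum_mul]
    refine Finset.sum_le_sum fun j hj => ?_
    rw [mem_SS] at hj
    have h4 := TT_sdiff_ge F (Gr δ s J n) (RR s J n) δ (.x j) (NN δ s J n j)
      ((NN δ s J n j).erase (.k q)) (good_x j)
    have hmemN : (Vt.k q : Vt s J n) ∈ NN δ s J n j := mem_NN.2 hj.1
    rw [Finset.card_erase_of_mem hmemN, NN_card hs] at h4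
    refine le_trans h4 (le_of_eq ?_)
    congr
    exact Subsingleton.elim _ _
  · intro j _ j' _ hne
    refine Finset.disjoint_left.2 ?_
    intro φ h1 h2
    obtain ⟨z, hz, h3, -⟩ := hmem j φ h1
    obtain ⟨z', hz', h3', -⟩ := hmem j' φ h2
    have h5 := mem_TZ.1 h3'
    refine TZ_avoid h3 (u := .x j') ?_ ?_ ?_ z' h5.2.1
    · intro h
      simp only [Vt.x.injEq] at h
      exact hne h
    · rw [mem_NN]
      exact fun h => h
    · rw [mem_RR]
      exact fun h => h

/-- the missing weight at `k q` -/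
def lack (δ q : ℕ) : ℕ :=
  if δ ≤ q + 1 then q.descFactorial δ else (δ + q + 1).descFactorial δ - (δ + q).descFactorial δ

lemma tele (hd : 1 ≤ δ) (m : ℕ) : ∑ j ∈ Finset.range m, vv δ j = (δ + m - 1).descFactorial δ := by
  induction m with
  | zero =>
    rw [Finset.sum_range_zero, Nat.descFactorial_of_lt (by omega)]
  | succ m ih =>
    rw [Finset.sum_range_succ, ih, vv]
    have h1 : (δ + m - 1).descFactorial δ ≤ (δ + m).descFactorial δ := Pmono (by omega)
    have h2 : δ + (m + 1) - 1 = δ + m := by omega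
    rw [h2]
    omega

lemma lack_sum (hd : 2 ≤ δ) (hJ : δ ≤ J) (hs : s = δ + J) (q : Fin s) :
    ∑ j ∈ univ.filter (fun j : Fin J => ¬ kx δ q.val j.val), vv δ j.val = lack δ q.val := by
  have hq := q.2
  rw [lack]
  split_ifs with h
  · have h1 : ∑ j ∈ univ.filter (fun j : Fin J => ¬ kx δ q.val j.val), vv δ j.val =
        ∑ j ∈ Finset.range (q.val + 1 - δ), vv δ j := by
      refine Finset.sum_bij (fun j _ => j.val) ?_ ?_ ?_ ?_
      · intro j hj
        rw [mem_filter] at hj
        rw [Finset.mem_range]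
        have h2 := hj.2
        unfold kx at h2
        omega
      · intro j _ j' _ hh
        exact Fin.ext hh
      · intro j hj
        rw [Finset.mem_range] at hj
        refine ⟨⟨j, by omega⟩, ?_, rfl⟩
        rw [mem_filter]
        refine ⟨mem_univ _, ?_⟩
        unfold kx
        show ¬ (q.val < δ + j ∧ _)
        omega
      · intro j _
        rfl
    rw [h1, tele (by omega)]
    congr 1
    omega
  · have h1 : univ.filter (fun j : Fin J => ¬ kx δ q.val j.val) = {⟨q.val + 1, by omega⟩} := by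
      ext j
      rw [mem_filter, mem_singleton, Fin.ext_iff]
      unfold kx
      show _ ↔ j.val = q.val + 1
      constructor
      · rintro ⟨-, h2⟩
        omega
      · intro h2
        refine ⟨mem_univ _, ?_⟩
        omega
    rw [h1, Finset.sum_singleton]
    show vv δ (q.val + 1) = _
    rw [vv]
    congr 2
    
lemma lack_diff (hd : 2 ≤ δ) (hJ : δ ≤ J) (hs : s = δ + J) (q q' : Fin s) :
    ∑ j ∈ (SS δ q q' : Finset (Fin J)), vv δ j.val + lack δ q.val =
      ∑ j ∈ (SS δ q' q : Finset (Fin J)), vv δ j.val + lack δ q'.val := by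
  rw [← lack_sum hd hJ hs q, ← lack_sum hd hJ hs q']
  have key : ∀ p p' : Fin s, ∑ j ∈ univ.filter (fun j : Fin J => ¬ kx δ p.val j.val), vv δ j.val =
      ∑ j ∈ (SS δ p' p : Finset (Fin J)), vv δ j.val +
      ∑ j ∈ univ.filter (fun j : Fin J => ¬ kx δ p.val j.val ∧ ¬ kx δ p'.val j.val), vv δ j.val := by
    intro p p'
    rw [← Finset.sum_union]
    · apply Finset.sum_congr _ (fun _ _ => rfl)
      ext j
      simp only [mem_union, mem_SS, mem_filter, mem_univ, true_and]
      tauto
    · rw [Finset.disjoint_left]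
      intro j h1 h2
      rw [mem_SS] at h1
      rw [mem_filter] at h2
      exact h2.2.2 h1.1
  rw [key q q', key q' q]
  have hcomm : univ.filter (fun j : Fin J => ¬ kx δ q.val j.val ∧ ¬ kx δ q'.val j.val) =
      univ.filter (fun j : Fin J => ¬ kx δ q'.val j.val ∧ ¬ kx δ q.val j.val) := by
    ext j
    simp only [mem_filter]
    tauto
  rw [hcomm]
  omega

lemma lack_mix (hd : 2 ≤ δ) {q p : ℕ} (hq : ¬ δ ≤ q + 1) (hp : δ ≤ p + 1) :
    lack δ q ≠ lack δ p := by
  rw [lack, lack, if_neg hq, if_pos hp]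
  obtain ⟨e, rfl⟩ : ∃ e, δ = e + 1 := ⟨δ - 1, by omega⟩
  have h1 : (e + 1 + q + 1).descFactorial (e + 1) = (e + 1 + q + 1) * (e + 1 + q).descFactorial e :=
    Nat.succ_descFactorial_succ _ _
  have h2 : (e + 1 + q).descFactorial (e + 1) = (q + 1) * (e + 1 + q).descFactorial e := by
    rw [Nat.descFactorial_succ]
    congr 1
    omega
  have hQ : 0 < (e + 1 + q).descFactorial e := Nat.descFactorial_pos.2 (by omega)
  have h3 : (e + 1 + q + 1).descFactorial (e + 1) - (e + 1 + q).descFactorial (e + 1) =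
      (e + 1) * (e + 1 + q).descFactorial e := by
    rw [h1, h2, ← Nat.sub_mul]
    congr 1
    omega
  rw [h3]
  rcases Nat.lt_or_ge (e + 1 + q) p with h | h
  · have h4 : (e + 1 + q + 1).descFactorial (e + 1) ≤ p.descFactorial (e + 1) := Pmono h
    rw [h1] at h4
    have h5 : (e + 1) * (e + 1 + q).descFactorial e <
        (e + 1 + q + 1) * (e + 1 + q).descFactorial e :=
      Nat.mul_lt_mul_of_pos_right (by omega) hQ
    omega
  · have h4 : p.descFactorial (e + 1) ≤ (e + 1 + q).descFactorial (e + 1) := Pmono h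
    rw [h2] at h4
    have h5 : (q + 1) * (e + 1 + q).descFactorial e <
        (e + 1) * (e + 1 + q).descFactorial e :=
      Nat.mul_lt_mul_of_pos_right (by omega) hQ
    omega

lemma lack_ne (hd : 2 ≤ δ) {q p : ℕ} (h : q < p) : lack δ q ≠ lack δ p := by
  by_cases hq : δ ≤ q + 1
  · rw [lack, lack, if_pos hq, if_pos (by omega)]
    exact (Plt' (by omega) hq h).ne
  · by_cases hp : δ ≤ p + 1
    · exact lack_mix hd hq hp
    · rw [lack, lack, if_neg hq, if_neg hp, Pstep' (by omega : 1 ≤ δ), Pstep' (by omega : 1 ≤ δ),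
        Nat.add_sub_cancel_left, Nat.add_sub_cancel_left]
      refine ne_of_lt (Nat.mul_lt_mul_of_pos_left ?_ (by omega))
      exact Plt' (by omega) (by omega) (by omega)

lemma lack_ne' (hd : 2 ≤ δ) {q p : ℕ} (h : q ≠ p) : lack δ q ≠ lack δ p := by
  rcases Nat.lt_or_gt_of_ne h with h | h
  · exact lack_ne hd h
  · exact (lack_ne hd h).symm

lemma c7a {F : SimpleGraph α} (hδ : ∀ z, δ ≤ dg F z) (hd : 2 ≤ δ) (hJ : δ ≤ J) (hs : s = δ + J)
    (hM : EE F δ s J n < MM F δ s J n) {q q' : Fin s} (h : lack δ q.val < lack δ q'.val) :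
    I F (Gr δ s J n) (.k q') < I F (Gr δ s J n) (.k q) := by
  apply I_lt
  refine lt_of_le_of_lt (c7up hδ hs q' q) (lt_of_lt_of_le ?_ (c7low hs q q'))
  have h1 := lack_diff hd hJ hs q q'
  calc (∑ j ∈ (SS δ q' q : Finset (Fin J)), vv δ j.val) * MM F δ s J n + EE F δ s J n
      < (∑ j ∈ (SS δ q' q : Finset (Fin J)), vv δ j.val) * MM F δ s J n + MM F δ s J n := by omega
    _ = ((∑ j ∈ (SS δ q' q : Finset (Fin J)), vv δ j.val) + 1) * MM F δ s J n := by ring
    _ ≤ _ := Nat.mul_le_mul_right _ (by omega)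

lemma c7 {F : SimpleGraph α} (hδ : ∀ z, δ ≤ dg F z) (hd : 2 ≤ δ) (hJ : δ ≤ J) (hs : s = δ + J)
    (hM : EE F δ s J n < MM F δ s J n) {q q' : Fin s} (h : q ≠ q') :
    I F (Gr δ s J n) (.k q) ≠ I F (Gr δ s J n) (.k q') := by
  have h1 := lack_ne' hd (show q.val ≠ q'.val from fun he => h (Fin.ext he))
  rcases Nat.lt_or_gt_of_ne h1 with h2 | h2
  · exact (c7a hδ hd hJ hs hM h2).ne'
  · exact (c7a hδ hd hJ hs hM h2).ne

end H16.FI
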