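import Mathlib
import Pool.Agent.H16.FI.Defs
import Pool.Agent.H16.FI.G1
import Pool.Agent.H16.FI.G2
import Pool.Agent.H16.FI.G3
import Pool.Agent.H16.FI.G4
import Pool.Agent.H16.FI.G5
import Pool.Agent.H16.FI.G6

set_option linter.unusedSectionVars false

namespace H16.FI

open Function Finset
open scoped Classical

variable {δ s J n : ℕ} {α : Type} [Fintype α]

/-- all comparisons together -/
lemma all_ne {F : SimpleGraph α} {z0 z1 : α} (h01 : F.Adj z0 z1) (hδ : ∀ z, δ ≤ dg F z)
    (hd : 2 ≤ δ) (hs : s = δ + J) (hn : 3 ≤ n) (hks : Fintype.card α ≤ s)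
    (hJ1 : δ ≤ J) (hJ2 : δ * (2 * δ).descFactorial δ ≤ J)
    (hM : EE F δ s J n < MM F δ s J n)
    (hE3 : (Eb F (Gr δ s J n) (ZZ s J n) 3).card <
      (n - 2).descFactorial (Fintype.card α - 2)) :
    ∀ u v : Vt s J n, u ≠ v → I F (Gr δ s J n) u ≠ I F (Gr δ s J n) v := by
  have hxx : ∀ j j' : Fin J, j < j' → I F (Gr δ s J n) (.x j) < I F (Gr δ s J n) (.x j') :=
    fun j j' h => cx hδ (by omega) hs hM h
  have hxy : ∀ j : Fin J, I F (Gr δ s J n) (.x j) < I F (Gr δ s J n) .y :=
    fun j => cxy hδ (by omega) hs hM j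
  have hyb0 : I F (Gr δ s J n) .y < I F (Gr δ s J n) (.b ⟨n - 1, by omega⟩) :=
    c9 hδ hd hs hn hM
  have hbb : ∀ j j' : Fin n, j < j' → I F (Gr δ s J n) (.b j') < I F (Gr δ s J n) (.b j) :=
    fun j j' h => c1 h01 hks h
  have hyb : ∀ j : Fin n, I F (Gr δ s J n) .y < I F (Gr δ s J n) (.b j) := by
    intro j
    have hj := j.2
    by_cases h : j.val = n - 1
    · have : j = ⟨n - 1, by omega⟩ := Fin.ext h
      rw [this]
      exact hyb0
    · exact hyb0.trans (hbb j ⟨n - 1, by omega⟩ (show j.val < n - 1 by omega))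
  have hba0 : I F (Gr δ s J n) (.b ⟨0, by omega⟩) < I F (Gr δ s J n) (.a ⟨0, by omega⟩) :=
    c2 h01 hks (by omega)
  have hba1 : ∀ j : Fin n, I F (Gr δ s J n) (.b j) < I F (Gr δ s J n) (.a ⟨0, by omega⟩) := by
    intro j
    by_cases h : j.val = 0
    · have : j = ⟨0, by omega⟩ := Fin.ext h
      rw [this]
      exact hba0
    · exact (hbb ⟨0, by omega⟩ j (show 0 < j.val by omega)).trans hba0
  have haa : ∀ i i' : Fin n, i < i' → I F (Gr δ s J n) (.a i) < I F (Gr δ s J n) (.a i') := by
    intro i i' h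
    have h' : i.val < i'.val := h
    by_cases h1 : 1 ≤ i.val
    · exact c4 h01 hks h1 h
    · have h0 : i = ⟨0, by omega⟩ := Fin.ext (by show i.val = 0; omega)
      have h3 := c3 h01 hδ hd hn hE3
      rw [h0]
      by_cases h2 : i'.val = 1
      · have : i' = ⟨1, by omega⟩ := Fin.ext h2
        rw [this]
        exact h3
      · exact h3.trans (c4 h01 hks (le_refl 1) (show (1 : ℕ) < i'.val by omega))
  have hba : ∀ j i : Fin n, I F (Gr δ s J n) (.b j) < I F (Gr δ s J n) (.a i) := by
    intro j i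
    by_cases h : i.val = 0
    · have : i = ⟨0, by omega⟩ := Fin.ext h
      rw [this]
      exact hba1 j
    · exact (hba1 j).trans (haa ⟨0, by omega⟩ i (show 0 < i.val by omega))
  have hak0 : I F (Gr δ s J n) (.a ⟨n - 1, by omega⟩) < I F (Gr δ s J n) .ks :=
    c5 hd hs (by omega) hn (by omega)
  have haks : ∀ i : Fin n, I F (Gr δ s J n) (.a i) < I F (Gr δ s J n) .ks := by
    intro i
    have hi := i.2
    by_cases h : i.val = n - 1
    · have : i = ⟨n - 1, by omega⟩ := Fin.ext h
      rw [this]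
      exact hak0
    · exact (haa i ⟨n - 1, by omega⟩ (show i.val < n - 1 by omega)).trans hak0
  have hksk : ∀ q : Fin s, I F (Gr δ s J n) .ks < I F (Gr δ s J n) (.k q) :=
    fun q => c6 hδ hd hs hJ2 hM q
  have hkk : ∀ q q' : Fin s, q ≠ q' → I F (Gr δ s J n) (.k q) ≠ I F (Gr δ s J n) (.k q') :=
    fun q q' h => c7 hδ hd hJ1 hs hM h
  have o : Fin n := ⟨0, by omega⟩
  have hyks : I F (Gr δ s J n) .y < I F (Gr δ s J n) .ks := (hyb o).trans ((hba o o).trans (haks o))
  intro u v huv
  cases u with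
  | k q =>
    cases v with
    | k q' => exact hkk q q' (fun h => huv (h ▸ rfl))
    | ks => exact (hksk q).ne'
    | a i => exact ((haks i).trans (hksk q)).ne'
    | b j => exact ((hba j o).trans ((haks o).trans (hksk q))).ne'
    | x j => exact ((hxy j).trans (hyks.trans (hksk q))).ne'
    | y => exact (hyks.trans (hksk q)).ne'
  | ks =>
    cases v with
    | k q' => exact (hksk q').ne
    | ks => exact absurd rfl huv
    | a i => exact (haks i).ne'
    | b j => exact ((hba j o).trans (haks o)).ne'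
    | x j => exact ((hxy j).trans hyks).ne'
    | y => exact hyks.ne'
  | a i =>
    cases v with
    | k q' => exact ((haks i).trans (hksk q')).ne
    | ks => exact (haks i).ne
    | a i' =>
      rcases lt_trichotomy i i' with h | h | h
      · exact (haa i i' h).ne
      · exact absurd (h ▸ rfl) huv
      · exact (haa i' i h).ne'
    | b j => exact (hba j i).ne'
    | x j => exact ((hxy j).trans ((hyb o).trans (hba o i))).ne'
    | y => exact ((hyb o).trans (hba o i)).ne'
  | b j =>
    cases v with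
    | k q' => exact ((hba j o).trans ((haks o).trans (hksk q'))).ne
    | ks => exact ((hba j o).trans (haks o)).ne
    | a i' => exact (hba j i').ne
    | b j' =>
      rcases lt_trichotomy j j' with h | h | h
      · exact (hbb j j' h).ne'
      · exact absurd (h ▸ rfl) huv
      · exact (hbb j' j h).ne
    | x j' => exact ((hxy j').trans (hyb j)).ne'
    | y => exact (hyb j).ne'
  | x j =>
    cases v with
    | k q' => exact ((hxy j).trans (hyks.trans (hksk q'))).ne
    | ks => exact ((hxy j).trans hyks).ne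
    | a i' => exact ((hxy j).trans ((hyb o).trans (hba o i'))).ne
    | b j' => exact ((hxy j).trans (hyb j')).ne
    | x j' =>
      rcases lt_trichotomy j j' with h | h | h
      · exact (hxx j j' h).ne
      · exact absurd (h ▸ rfl) huv
      · exact (hxx j' j h).ne'
    | y => exact (hxy j).ne
  | y =>
    cases v with
    | k q' => exact (hyks.trans (hksk q')).ne
    | ks => exact hyks.ne
    | a i' => exact ((hyb o).trans (hba o i')).ne
    | b j' => exact (hyb j').ne
    | x j' => exact (hxy j').ne'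
    | y => exact absurd rfl huv

/-- part G -/
theorem case_two {F : SimpleGraph α} {z0 : α} (hδ : ∀ z, dg F z0 ≤ dg F z) (hd : 2 ≤ dg F z0) :
    ∃ (β : Type) (_ : Fintype β) (G : SimpleGraph β), Nontrivial β ∧
      ∀ u v, u ≠ v → I F G u ≠ I F G v := by
  obtain ⟨δ, hδ0⟩ : ∃ δ, δ = dg F z0 := ⟨_, rfl⟩
  rw [← hδ0] at hδ hd
  have hk : δ + 1 ≤ Fintype.card α := by
    rw [hδ0, ← cn_card]
    exact Finset.card_le_univ _
  obtain ⟨z1, h01⟩ : ∃ z1, F.Adj z0 z1 := by
    have : 0 < Fintype.card {a // F.Adj z0 a} := by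
      rw [dg] at hδ0
      omega
    obtain ⟨a, ha⟩ := Fintype.card_pos_iff.1 this
    exact ⟨a, ha⟩
  let k := Fintype.card α
  let J := δ * (2 * δ).descFactorial δ + δ + k
  let s := δ + J
  obtain ⟨N1, hN1⟩ := growth ((k.choose 3) * (s + J + 5) ^ 3) (s + J + 2) (k - 3)
  obtain ⟨N2, hN2⟩ := growth ((k.choose (δ + 2)) * (s + J + 5) ^ (δ + 2)) (s + J + 2) (k - (δ + 2))
  let n := N1 + N2 + 3
  have hn : 3 ≤ n := by simp only [n]; omega
  have hV : Fintype.card (Vt s J n) ≤ 2 * n + (s + J + 2) := V_card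
  have hZ : (ZZ s J n).card ≤ s + J + 5 := Z_card hn
  have hE3 : (Eb F (Gr δ s J n) (ZZ s J n) 3).card < (n - 2).descFactorial (k - 2) := by
    refine lt_of_le_of_lt (Eb_le F (Gr δ s J n) (ZZ s J n) 3) ?_
    have h1 := hN1 n (by simp only [n]; omega)
    have h2 : k - 3 + 1 = k - 2 := by simp only [k]; omega
    rw [h2] at h1
    refine lt_of_le_of_lt ?_ h1
    show k.choose 3 * ((ZZ s J n).card ^ 3 * Fintype.card (Vt s J n) ^ (k - 3)) ≤ _
    rw [← mul_assoc]
    gcongr
  have hM : EE F δ s J n < MM F δ s J n := by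
    have hMg : (n - 2).descFactorial (k - 1 - δ) ≤ MM F δ s J n := by
      have := M_ge (F := F) (G := Gr δ s J n) (R := RR s J n) (A' := Am s J n) (δ := δ) (z0 := z0)
        hδ0.symm Am_sub Am_cl
      rwa [Am_card hn] at this
    refine lt_of_lt_of_le ?_ hMg
    refine lt_of_le_of_lt (Eb_le F (Gr δ s J n) (ZZ s J n) (δ + 2)) ?_
    by_cases hkd : k = δ + 1
    · have h1 : k.choose (δ + 2) = 0 := Nat.choose_eq_zero_of_lt (by omega)
      show k.choose (δ + 2) * _ < _
      rw [h1, zero_mul]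
      exact Nat.descFactorial_pos.2 (by omega)
    · have h1 := hN2 n (by simp only [n]; omega)
      have hk' : δ + 1 ≤ k := hk
      have h2 : k - (δ + 2) + 1 = k - 1 - δ := by omega
      rw [h2] at h1
      refine lt_of_le_of_lt ?_ h1
      show k.choose (δ + 2) * ((ZZ s J n).card ^ (δ + 2) *
        Fintype.card (Vt s J n) ^ (k - (δ + 2))) ≤ _
      rw [← mul_assoc]
      gcongr
  refine ⟨Vt s J n, inferInstance, Gr δ s J n, ⟨.ks, .y, by simp⟩, ?_⟩
  exact all_ne h01 hδ hd rfl hn (by simp only [s, J, k]; omega) (by simp only [J]; omega)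
    (by simp only [J]; omega) hM hE3

end H16.FI
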