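import Pool.Agent.H16.FI.LeafC

/-! Part L: graphs `F` with a vertex of degree one -/

namespace H16.FI.Leaf

open Function H16.FI

variable {α : Type} [Fintype α] {n m : ℕ}

/-- adjacency is preserved by a relabelling, from the `inl - inr` and `inr - inr` cases -/
lemma hadj_of {u p v w : Fin n ⊕ Fin n}
    (hul : ∀ i, u ≠ Sum.inl i) (hpl : ∀ i, p ≠ Sum.inl i)
    (hlr : ∀ i j, Sum.inl i ≠ v → Sum.inl i ≠ w → Sum.inr j ≠ v → Sum.inr j ≠ w → j ≤ i →
      (LG n).Adj (Sum.inl i) (sg u p v w (Sum.inr j)))
    (hrr : ∀ i j : Fin n, i.val = 0 → j.val + 1 = n → i ≠ j →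
      (LG n).Adj (sg u p v w (Sum.inr i)) (sg u p v w (Sum.inr j))) :
    ∀ x y, x ≠ v → x ≠ w → y ≠ v → y ≠ w → (LG n).Adj x y →
      (LG n).Adj (sg u p v w x) (sg u p v w y) := by
  have hl : ∀ i, sg u p v w (Sum.inl i) = Sum.inl i := fun i => sg_o _ _ (hul i).symm (hpl i).symm
  rintro (i | i) (j | j) hx1 hx2 hy1 hy2 h
  · rw [hl, hl]; exact h
  · rw [hl]; exact hlr i j hx1 hx2 hy1 hy2 h
  · rw [hl]; exact (hlr j i hy1 hy2 hx1 hx2 h).symm
  · rw [adj_rr] at h
    rcases h with ⟨hne, ⟨h1, h2⟩ | ⟨h1, h2⟩⟩
    · exact hrr i j h1 h2 hne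
    · exact (hrr j i h1 h2 hne.symm).symm

variable [DecidableEq α] (F : SimpleGraph α) (z f0 g : α) (hz : ∀ b, F.Adj z b ↔ b = f0)
  (hg : F.Adj f0 g) (hgz : g ≠ z)

include hz hg hgz

/-- `b_0 < a_1` -/
lemma cmp4 (hp : Par α n m) (hk : 3 ≤ Fintype.card α)
    (hlt : Fintype.card α ^ 3 * (2 * n) ^ (Fintype.card α - 3) < m ^ (Fintype.card α - 2))
    (o one : Fin n) (ho : o.val = 0) (h1 : one.val = 1) :
    I F (LG n) (Sum.inr o) < I F (LG n) (Sum.inl one) := by
  have hn := hp.hn
  have hm := hp.hm
  have hzf : z ≠ f0 := ((hz f0).mpr rfl).ne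
  have hkm : 3 ≤ Fintype.card α * m := by nlinarith
  set last : Fin n := ⟨n - 1, by omega⟩ with hlast
  have hlv : last.val = n - 1 := rfl
  have ho1 : o ≠ one := fun h => by rw [h] at ho; omega
  have hol : o ≠ last := fun h => by rw [h] at ho; omega
  have h1l : one ≠ last := fun h => by rw [h] at h1; omega
  have hcard : Fintype.card (Fin n ⊕ Fin n) = 2 * n := by
    rw [Fintype.card_sum, Fintype.card_fin]; ring
  refine count_cmp F (LG n) (u := Sum.inr o) (v := Sum.inl one) (w := Sum.inr one) (p := Sum.inr last)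
    (z := z) (f0 := f0) hzf
    (fun c => if c = z then {Sum.inl one} else if c = f0 then {Sum.inr one} else hiA hp c) m
    (by simp) (by simpa using hol) (by simpa using ho1) (by simpa using h1l.symm) ?_ ?_ (by simp) ?_ ?_ ?_ ?_ ?_
    (by rw [hcard]; exact hlt)
  · intro φ hφ
    rw [mem_D, mem_Cop] at hφ
    obtain ⟨hc, hu, a, b, hab, ha, hn'⟩ := hφ
    refine ⟨a, b, hab, ha, ?_⟩
    have hadj := hc.2 a b hab
    rw [ha] at hadj
    have hub := hu b
    rcases hb : φ b with t | t
    · exfalso
      rw [hb, adj_ll, not_not] at hn'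
      rw [hb, hn'] at hub
      exact hub rfl
    · rw [hb, adj_rr] at hadj
      congr 1
      apply Fin.ext
      omega
  · apply hadj_of
    · intro i; simp
    · intro i; simp
    · intro i j hi1 hi2 hj1 hj2 hji
      by_cases hjo : j = o
      · subst hjo
        rw [sg_p, adj_ll]
        intro h; exact hi1 (by rw [h])
      · by_cases hjl : j = last
        · subst hjl
          rw [sg_q _ _ (by simpa using hol.symm), adj_lr, Fin.le_def]
          rw [Fin.le_def] at hji
          omega
        · rw [sg_o _ _ (by simpa using hjo) (by simpa using hjl)]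
          exact hji
    · intro i j hi hj hne
      have e1 : i = o := Fin.ext (by omega)
      have e2 : j = last := Fin.ext (by omega)
      subst e1
      subst e2
      rw [sg_p, sg_q _ _ (by simpa using hol.symm)]
      simp
  · rw [adj_rr]; omega
  · intro φ hφ
    rw [Fintype.mem_piFinset] at hφ
    have ez : φ z = Sum.inl one := by
      have := hφ z
      rw [if_pos rfl, Finset.mem_singleton] at this
      exact this
    have ef : φ f0 = Sum.inr one := by
      have := hφ f0
      rw [if_neg hzf.symm, if_pos rfl, Finset.mem_singleton] at this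
      exact this
    have ec : ∀ c, c ≠ z → c ≠ f0 → ∃ (i : Fin n) (t : ℕ), φ c = Sum.inl i ∧ t < m ∧
        i.val = Fintype.card α * m + 3 + (idx c * m + t) := by
      intro c h1 h2
      have := hφ c
      rw [if_neg h1, if_neg h2] at this
      exact mem_hiA hp this
    have hinj : ∀ c d, c ≠ z → d ≠ z → c ≠ f0 → d ≠ f0 → φ c = φ d → c = d := by
      intro c d c1 d1 c2 d2 h
      obtain ⟨i, t, hi, ht, hiv⟩ := ec c c1 c2
      obtain ⟨j, s, hj, hs, hjv⟩ := ec d d1 d2
      rw [hi, hj] at h
      have := congrArg Fin.val (Sum.inl_injective h)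
      exact blk_inj ht hs (by omega)
    rw [mem_D, mem_Cop]
    refine ⟨⟨?_, ?_⟩, ?_, z, f0, (hz f0).mpr rfl, ez, ?_⟩
    · intro c d h
      by_cases c1 : c = z
      · by_cases d1 : d = z
        · rw [c1, d1]
        · exfalso
          rw [c1, ez] at h
          by_cases d2 : d = f0
          · rw [d2, ef] at h; exact absurd h (by simp)
          · obtain ⟨j, s, hj, hs, hjv⟩ := ec d d1 d2
            rw [hj] at h
            have := congrArg Fin.val (Sum.inl_injective h)
            omega
      · by_cases d1 : d = z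
        · exfalso
          rw [d1, ez] at h
          by_cases c2 : c = f0
          · rw [c2, ef] at h; exact absurd h (by simp)
          · obtain ⟨j, s, hj, hs, hjv⟩ := ec c c1 c2
            rw [hj] at h
            have := congrArg Fin.val (Sum.inl_injective h)
            omega
        · by_cases c2 : c = f0
          · by_cases d2 : d = f0
            · rw [c2, d2]
            · exfalso
              obtain ⟨j, s, hj, hs, hjv⟩ := ec d d1 d2
              rw [c2, ef, hj] at h
              exact absurd h (by simp)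
          · by_cases d2 : d = f0
            · exfalso
              obtain ⟨j, s, hj, hs, hjv⟩ := ec c c1 c2
              rw [d2, ef, hj] at h
              exact absurd h (by simp)
            · exact hinj c d c1 d1 c2 d2 h
    · have key : ∀ b, b ≠ z → b ≠ f0 → (LG n).Adj (φ f0) (φ b) := by
        intro b b1 b2
        obtain ⟨j, s, hj, hs, hjv⟩ := ec b b1 b2
        rw [ef, hj, adj_rl, Fin.le_def]; omega
      have kz : (LG n).Adj (φ z) (φ f0) := by rw [ez, ef]; simp
      intro a b hab
      by_cases a1 : a = z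
      · subst a1
        rw [(hz b).mp hab]; exact kz
      · by_cases b1 : b = z
        · subst b1
          rw [(hz a).mp hab.symm]; exact kz.symm
        · by_cases a2 : a = f0
          · subst a2
            exact key b b1 hab.symm.ne
          · by_cases b2 : b = f0
            · subst b2
              exact (key a a1 a2).symm
            · obtain ⟨i, t, hi, ht, hiv⟩ := ec a a1 a2
              obtain ⟨j, s, hj, hs, hjv⟩ := ec b b1 b2
              rw [hi, hj, adj_ll]
              intro h
              exact hab.ne (hinj a b a1 b1 a2 b2 (by rw [hi, hj, h]))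
    · intro a ha
      by_cases a1 : a = z
      · rw [a1, ez] at ha; exact absurd ha (by simp)
      · by_cases a2 : a = f0
        · rw [a2, ef] at ha
          exact ho1 (Sum.inr_injective ha).symm
        · obtain ⟨i, t, hi, ht, hiv⟩ := ec a a1 a2
          rw [hi] at ha; exact absurd ha (by simp)
    · rw [ef, adj_rr]; omega
  · intro φ hφ hv hw hT
    rw [Fintype.mem_piFinset] at hT
    rw [mem_Cop] at hφ
    have hadj := hφ.2 f0 g hg
    have e1 := hT f0
    rw [if_neg hzf.symm, if_pos rfl, Finset.mem_singleton] at e1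
    have e2 := hT g
    rw [if_neg hgz, if_neg hg.symm.ne] at e2
    obtain ⟨i, t, hi, ht, hiv⟩ := mem_hiA hp e2
    have hb := blk_lt g ht
    rcases sg_cases e1 with ⟨-, h⟩ | ⟨h, -⟩ | h
    · exact absurd h (by simp)
    · rcases sg_cases hi with ⟨-, h'⟩ | ⟨-, h'⟩ | h'
      · have := congrArg Fin.val (Sum.inl_injective h')
        omega
      · exact absurd h' (by simp)
      · rw [h, h', adj_rl, Fin.le_def] at hadj
        omega
    · exact hw f0 h
  · rintro c (rfl | rfl)
    · rw [if_pos rfl, Finset.card_singleton]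
    · rw [if_neg hzf.symm, if_pos rfl, Finset.card_singleton]
  · intro c hc
    push Not at hc
    rw [if_neg hc.1, if_neg hc.2, card_hiA]

/-- `b_{n-1} < b_{n-2}` -/
lemma cmp6 (hp : Par α n m) (hk : 3 ≤ Fintype.card α)
    (hlt : Fintype.card α ^ 3 * (2 * n) ^ (Fintype.card α - 3) < m ^ (Fintype.card α - 2))
    (last pl : Fin n) (hl : last.val + 1 = n) (hpl : pl.val + 2 = n) :
    I F (LG n) (Sum.inr last) < I F (LG n) (Sum.inr pl) := by
  have hn := hp.hn
  have hm := hp.hm
  have hzf : z ≠ f0 := ((hz f0).mpr rfl).ne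
  have hkm : 3 ≤ Fintype.card α * m := by nlinarith
  set o : Fin n := ⟨0, by omega⟩ with ho'
  have ho : o.val = 0 := rfl
  have hop : o ≠ pl := fun h => by rw [h] at ho; omega
  have hol : o ≠ last := fun h => by rw [h] at ho; omega
  have hpl' : pl ≠ last := fun h => by rw [h] at hpl; omega
  have hcard : Fintype.card (Fin n ⊕ Fin n) = 2 * n := by
    rw [Fintype.card_sum, Fintype.card_fin]; ring
  refine count_cmp F (LG n) (u := Sum.inr last) (v := Sum.inr pl) (w := Sum.inl pl) (p := Sum.inr o)
    (z := z) (f0 := f0) hzf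
    (fun c => if c = z then {Sum.inr pl} else if c = f0 then {Sum.inl pl} else
      if c = g then loB hp c else hiA hp c) m
    (by simp) (by simpa using hol.symm) (by simp) (by simp) ?_ ?_ (by simpa using hpl'.symm) ?_ ?_ ?_ ?_ ?_
    (by rw [hcard]; exact hlt)
  · intro φ hφ
    rw [mem_D, mem_Cop] at hφ
    obtain ⟨hc, hu, a, b, hab, ha, hn'⟩ := hφ
    refine ⟨a, b, hab, ha, ?_⟩
    have hadj := hc.2 a b hab
    rw [ha] at hadj
    rcases hb : φ b with t | t
    · exfalso
      rw [hb, adj_rl, Fin.le_def] at hn' hadj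
      omega
    · rw [hb, adj_rr] at hadj
      congr 1
      apply Fin.ext
      omega
  · apply hadj_of
    · intro i; simp
    · intro i; simp
    · intro i j hi1 hi2 hj1 hj2 hji
      by_cases hjl : j = last
      · subst hjl
        rw [sg_p, adj_lr, Fin.le_def]
        rw [Fin.le_def] at hji
        omega
      · by_cases hjo : j = o
        · rw [hjo, sg_q _ _ (by simpa using hol), adj_ll]
          intro h; exact hi2 (by rw [h])
        · rw [sg_o _ _ (by simpa using hjl) (by simpa using hjo)]
          exact hji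
    · intro i j hi hj hne
      have e1 : i = o := Fin.ext (by omega)
      have e2 : j = last := Fin.ext (by omega)
      rw [e1, e2, sg_p, sg_q _ _ (by simpa using hol)]
      simp
  · rw [adj_rl, Fin.le_def]; omega
  · intro φ hφ
    rw [Fintype.mem_piFinset] at hφ
    have ez : φ z = Sum.inr pl := by
      have := hφ z
      rw [if_pos rfl, Finset.mem_singleton] at this
      exact this
    have ef : φ f0 = Sum.inl pl := by
      have := hφ f0
      rw [if_neg hzf.symm, if_pos rfl, Finset.mem_singleton] at this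
      exact this
    obtain ⟨ig, tg, eg, htg, higv⟩ : ∃ (i : Fin n) (t : ℕ), φ g = Sum.inr i ∧ t < m ∧
        i.val = 2 + (idx g * m + t) := by
      have := hφ g
      rw [if_neg hgz, if_neg hg.symm.ne, if_pos rfl] at this
      exact mem_loB hp this
    have hbg := blk_lt g htg
    have ec : ∀ c, c ≠ z → c ≠ f0 → c ≠ g → ∃ (i : Fin n) (t : ℕ), φ c = Sum.inl i ∧ t < m ∧
        i.val = Fintype.card α * m + 3 + (idx c * m + t) := by
      intro c h1 h2 h3
      have := hφ c
      rw [if_neg h1, if_neg h2, if_neg h3] at this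
      exact mem_hiA hp this
    -- a normal form for all vertices
    have cls : ∀ c, c = z ∨ c = f0 ∨ c = g ∨ (c ≠ z ∧ c ≠ f0 ∧ c ≠ g) := by
      intro c; tauto
    have hinj : Injective φ := by
      intro c d h
      rcases cls c with rfl | rfl | rfl | ⟨c1, c2, c3⟩ <;> rcases cls d with hd | hd | hd | ⟨d1, d2, d3⟩
      · exact hd.symm
      · rw [hd, ez, ef] at h; exact absurd h (by simp)
      · rw [hd, ez, eg] at h
        have := congrArg Fin.val (Sum.inr_injective h)
        omega
      · obtain ⟨j, s, hj, hs, hjv⟩ := ec d d1 d2 d3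
        rw [ez, hj] at h; exact absurd h (by simp)
      · rw [hd, ez, ef] at h; exact absurd h (by simp)
      · exact hd.symm
      · rw [hd, ef, eg] at h; exact absurd h (by simp)
      · obtain ⟨j, s, hj, hs, hjv⟩ := ec d d1 d2 d3
        have hb := blk_lt d hs
        rw [ef, hj] at h
        have := congrArg Fin.val (Sum.inl_injective h)
        omega
      · rw [hd, eg, ez] at h
        have := congrArg Fin.val (Sum.inr_injective h)
        omega
      · rw [hd, ef, eg] at h; exact absurd h (by simp)
      · exact hd.symm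
      · obtain ⟨j, s, hj, hs, hjv⟩ := ec d d1 d2 d3
        rw [eg, hj] at h; exact absurd h (by simp)
      · obtain ⟨j, s, hj, hs, hjv⟩ := ec c c1 c2 c3
        rw [hd, ez, hj] at h; exact absurd h (by simp)
      · obtain ⟨j, s, hj, hs, hjv⟩ := ec c c1 c2 c3
        have hb := blk_lt c hs
        rw [hd, ef, hj] at h
        have := congrArg Fin.val (Sum.inl_injective h)
        omega
      · obtain ⟨j, s, hj, hs, hjv⟩ := ec c c1 c2 c3
        rw [hd, eg, hj] at h; exact absurd h (by simp)
      · obtain ⟨i, t, hi, ht, hiv⟩ := ec c c1 c2 c3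
        obtain ⟨j, s, hj, hs, hjv⟩ := ec d d1 d2 d3
        rw [hi, hj] at h
        have := congrArg Fin.val (Sum.inl_injective h)
        exact blk_inj ht hs (by omega)
    rw [mem_D, mem_Cop]
    refine ⟨⟨hinj, ?_⟩, ?_, z, f0, (hz f0).mpr rfl, ez, ?_⟩
    · have kz : (LG n).Adj (φ z) (φ f0) := by rw [ez, ef]; simp
      have kf : ∀ b, b ≠ z → b ≠ f0 → (LG n).Adj (φ f0) (φ b) := by
        intro b b1 b2
        by_cases b3 : b = g
        · rw [b3, ef, eg, adj_lr, Fin.le_def]; omega
        · obtain ⟨j, s, hj, hs, hjv⟩ := ec b b1 b2 b3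
          have hb := blk_lt b hs
          rw [ef, hj, adj_ll]
          intro h
          have := congrArg Fin.val h
          omega
      have kg : ∀ b, b ≠ z → b ≠ f0 → b ≠ g → (LG n).Adj (φ g) (φ b) := by
        intro b b1 b2 b3
        obtain ⟨j, s, hj, hs, hjv⟩ := ec b b1 b2 b3
        rw [eg, hj, adj_rl, Fin.le_def]; omega
      intro a b hab
      by_cases a1 : a = z
      · subst a1
        rw [(hz b).mp hab]; exact kz
      by_cases b1 : b = z
      · subst b1
        rw [(hz a).mp hab.symm]; exact kz.symm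
      by_cases a2 : a = f0
      · subst a2
        exact kf b b1 hab.symm.ne
      by_cases b2 : b = f0
      · subst b2
        exact (kf a a1 a2).symm
      by_cases a3 : a = g
      · subst a3
        exact kg b b1 b2 hab.symm.ne
      by_cases b3 : b = g
      · subst b3
        exact (kg a a1 a2 a3).symm
      obtain ⟨i, t, hi, ht, hiv⟩ := ec a a1 a2 a3
      obtain ⟨j, s, hj, hs, hjv⟩ := ec b b1 b2 b3
      rw [hi, hj, adj_ll]
      intro h
      exact hab.ne (hinj (by rw [hi, hj, h]))
    · intro a ha
      rcases cls a with rfl | rfl | rfl | ⟨c1, c2, c3⟩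
      · rw [ez] at ha; exact hpl' (Sum.inr_injective ha)
      · rw [ef] at ha; exact absurd ha (by simp)
      · rw [eg] at ha
        have := congrArg Fin.val (Sum.inr_injective ha)
        omega
      · obtain ⟨i, t, hi, ht, hiv⟩ := ec a c1 c2 c3
        rw [hi] at ha; exact absurd ha (by simp)
    · rw [ef, adj_rl, Fin.le_def]; omega
  · intro φ hφ hv hw hT
    rw [Fintype.mem_piFinset] at hT
    rw [mem_Cop] at hφ
    have hadj := hφ.2 f0 g hg
    have e1 := hT f0
    rw [if_neg hzf.symm, if_pos rfl, Finset.mem_singleton] at e1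
    have e2 := hT g
    rw [if_neg hgz, if_neg hg.symm.ne, if_pos rfl] at e2
    obtain ⟨i, t, hi, ht, hiv⟩ := mem_loB hp e2
    have hb := blk_lt g ht
    rcases sg_cases e1 with ⟨-, h⟩ | ⟨h, -⟩ | h
    · exact absurd h (by simp)
    · rcases sg_cases hi with ⟨-, h'⟩ | ⟨-, h'⟩ | h'
      · have := congrArg Fin.val (Sum.inr_injective h')
        omega
      · exact absurd h' (by simp)
      · rw [h, h', adj_rr] at hadj
        omega
    · exact hw f0 h
  · rintro c (rfl | rfl)
    · rw [if_pos rfl, Finset.card_singleton]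
    · rw [if_neg hzf.symm, if_pos rfl, Finset.card_singleton]
  · intro c hc
    push Not at hc
    rw [if_neg hc.1, if_neg hc.2]
    split_ifs
    · rw [card_loB]
    · rw [card_hiA]

end H16.FI.Leaf

namespace H16.FI

open Leaf

theorem case_leaf {α : Type} (F : SimpleGraph α) [Fintype α] (hF : F.Connected)
    (hk : 3 ≤ Fintype.card α) (z f0 : α) (hz : ∀ b, F.Adj z b ↔ b = f0) :
    ∃ (β : Type) (_ : Fintype β) (G : SimpleGraph β), Nontrivial β ∧
      ∀ u v : β, u ≠ v → I F G u ≠ I F G v := by
  classical
  -- another neighbour of `f0`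
  obtain ⟨g, hg, hgz⟩ : ∃ g, F.Adj f0 g ∧ g ≠ z := by
    by_contra hcon
    push Not at hcon
    have hclosed : ∀ (x y : α) (_ : F.Walk x y), (x = z ∨ x = f0) → (y = z ∨ y = f0) := by
      intro x y w
      induction w with
      | nil => exact id
      | cons h _ ih =>
        rintro (hx | hx)
        · subst hx
          exact ih (Or.inr ((hz _).mp h))
        · subst hx
          exact ih (Or.inl (hcon _ h))
    have hall : ∀ y, y = z ∨ y = f0 := fun y => by
      obtain ⟨w⟩ := hF.preconnected z y
      exact hclosed z y w (Or.inl rfl)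
    have : Fintype.card α ≤ ({z, f0} : Finset α).card := by
      rw [← Finset.card_univ]
      apply Finset.card_le_card
      intro y _
      rw [Finset.mem_insert, Finset.mem_singleton]
      exact hall y
    have h2 := Finset.card_le_two (a := z) (b := f0)
    omega
  set k := Fintype.card α with hkdef
  obtain ⟨m, hmdef⟩ : ∃ m, m = 16 + k ^ 3 * (4 * k + 1) ^ (k - 3) := ⟨_, rfl⟩
  obtain ⟨n, hndef⟩ : ∃ n, n = 2 * (k * m) + 8 := ⟨_, rfl⟩
  have hp : Par α n m := ⟨hndef, by omega⟩
  have hkm : 3 * 16 ≤ k * m := Nat.mul_le_mul hk (by omega)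
  have hkm' : k ≤ k * m := Nat.le_mul_of_pos_right k (by omega)
  have hn : k + 3 ≤ n := by omega
  have hlt : k ^ 3 * (2 * n) ^ (k - 3) < m ^ (k - 2) := by
    have e1 : k - 2 = (k - 3) + 1 := by omega
    have e2 : 2 * n ≤ (4 * k + 1) * m := by
      rw [hndef]
      have : (4 * k + 1) * m = 4 * (k * m) + m := by ring
      rw [this]; omega
    calc k ^ 3 * (2 * n) ^ (k - 3) ≤ k ^ 3 * ((4 * k + 1) * m) ^ (k - 3) :=
          Nat.mul_le_mul_left _ (Nat.pow_le_pow_left e2 _)
      _ = (k ^ 3 * (4 * k + 1) ^ (k - 3)) * m ^ (k - 3) := by rw [mul_pow]; ring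
      _ < m * m ^ (k - 3) := by
          apply Nat.mul_lt_mul_of_pos_right
          · omega
          · exact Nat.pow_pos (by omega)
      _ = m ^ (k - 2) := by rw [e1, pow_succ]; ring
  let o : Fin n := ⟨0, by omega⟩
  let one : Fin n := ⟨1, by omega⟩
  let pl : Fin n := ⟨n - 2, by omega⟩
  let last : Fin n := ⟨n - 1, by omega⟩
  have c4 := cmp4 F z f0 g hz hg hgz hp hk hlt o one rfl rfl
  have c6 := cmp6 F z f0 g hz hg hgz hp hk hlt last pl (by show n - 1 + 1 = n; omega)
    (by show n - 2 + 2 = n; omega)
  have cab := lt_ab F z f0 hz hn o rfl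
  have hA0 : ∀ i, I F (LG n) (Sum.inl o) ≤ I F (LG n) (Sum.inl i) := by
    intro i
    by_cases h : i = o
    · rw [h]
    · refine (lt_aa F z f0 hz hn o i ?_).le
      have : i.val ≠ 0 := fun h' => h (Fin.ext h')
      show 0 < i.val
      omega
  have hA1 : ∀ i : Fin n, 1 ≤ i.val → I F (LG n) (Sum.inl one) ≤ I F (LG n) (Sum.inl i) := by
    intro i h1
    by_cases h : i = one
    · rw [h]
    · refine (lt_aa F z f0 hz hn one i ?_).le
      have : i.val ≠ 1 := fun h' => h (Fin.ext h')
      show 1 < i.val
      omega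
  have hB : ∀ j : Fin n, 1 ≤ j.val → I F (LG n) (Sum.inr j) < I F (LG n) (Sum.inl o) := by
    intro j hj
    by_cases h : j.val + 1 < n
    · exact lt_ba F z f0 hz hn o j rfl hj h
    · have : j = last := Fin.ext (by show j.val = n - 1; omega)
      rw [this]
      refine c6.trans (lt_ba F z f0 hz hn o pl rfl ?_ ?_)
      · show 1 ≤ n - 2; omega
      · show n - 2 + 1 < n; omega
  have hBB : ∀ i j : Fin n, i.val < j.val → I F (LG n) (Sum.inr j) < I F (LG n) (Sum.inr i) := by
    intro i j hij
    by_cases hi : i.val = 0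
    · have : i = o := Fin.ext hi
      rw [this]
      exact (hB j (by omega)).trans cab
    · by_cases h : j.val + 1 < n
      · exact lt_bb F z f0 hz hn i j (by omega) hij h
      · have : j = last := Fin.ext (by show j.val = n - 1; omega)
        rw [this]
        by_cases hip : i = pl
        · rw [hip]; exact c6
        · refine c6.trans (lt_bb F z f0 hz hn i pl (by omega) ?_ ?_)
          · have : i.val ≠ n - 2 := fun h' => hip (Fin.ext h')
            show i.val < n - 2
            omega
          · show n - 2 + 1 < n; omega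
  refine ⟨Fin n ⊕ Fin n, inferInstance, LG n, ⟨⟨Sum.inl o, Sum.inr o, by simp⟩⟩, ?_⟩
  have hlr : ∀ i j : Fin n, I F (LG n) (Sum.inl i) ≠ I F (LG n) (Sum.inr j) := by
    intro i j
    by_cases hj : j.val = 0
    · have hjo : j = o := Fin.ext hj
      rw [hjo]
      by_cases hi : i.val = 0
      · have hio : i = o := Fin.ext hi
        rw [hio]
        exact cab.ne
      · exact (c4.trans_le (hA1 i (by omega))).ne'
    · exact ((hB j (by omega)).trans_le (hA0 i)).ne'
  rintro (i | i) (j | j) hne
  · have hij : i.val ≠ j.val := fun h => hne (by rw [Fin.ext h])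
    rcases Nat.lt_or_gt_of_ne hij with h | h
    · exact (lt_aa F z f0 hz hn i j h).ne
    · exact (lt_aa F z f0 hz hn j i h).ne'
  · exact hlr i j
  · exact (hlr j i).symm
  · have hij : i.val ≠ j.val := fun h => hne (by rw [Fin.ext h])
    rcases Nat.lt_or_gt_of_ne hij with h | h
    · exact (hBB i j h).ne'
    · exact (hBB j i h).ne

end H16.FI
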