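import Pool.Agent.H16.FI.Defs

/-! Part L: the graph and the counting lemmas -/

namespace H16.FI.Leaf

open Function H16.FI

/-- the graph: `inl` = clique `a_i`, `inr` = `b_j`, `a_i ~ b_j` iff `j ≤ i`, and `b_0 ~ b_{n-1}` -/
def LG (n : ℕ) : SimpleGraph (Fin n ⊕ Fin n) where
  Adj x y := match x, y with
    | Sum.inl i, Sum.inl j => i ≠ j
    | Sum.inl i, Sum.inr j => j ≤ i
    | Sum.inr j, Sum.inl i => j ≤ i
    | Sum.inr i, Sum.inr j => i ≠ j ∧ ((i.val = 0 ∧ j.val + 1 = n) ∨ (j.val = 0 ∧ i.val + 1 = n))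
  symm := ⟨by
    rintro (i | i) (j | j) h
    · exact Ne.symm h
    · exact h
    · exact h
    · exact ⟨h.1.symm, h.2.symm⟩⟩
  loopless := ⟨by
    rintro (i | i) h
    · exact h rfl
    · exact h.1 rfl⟩

variable {n : ℕ}

@[simp] lemma adj_ll (i j : Fin n) : (LG n).Adj (Sum.inl i) (Sum.inl j) ↔ i ≠ j := Iff.rfl
@[simp] lemma adj_lr (i j : Fin n) : (LG n).Adj (Sum.inl i) (Sum.inr j) ↔ j ≤ i := Iff.rfl
@[simp] lemma adj_rl (i j : Fin n) : (LG n).Adj (Sum.inr j) (Sum.inl i) ↔ j ≤ i := Iff.rfl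
@[simp] lemma adj_rr (i j : Fin n) : (LG n).Adj (Sum.inr i) (Sum.inr j) ↔
  i ≠ j ∧ ((i.val = 0 ∧ j.val + 1 = n) ∨ (j.val = 0 ∧ i.val + 1 = n)) := Iff.rfl

section general
variable {α β : Type} [Fintype α] [Fintype β]

lemma D_empty (F : SimpleGraph α) (G : SimpleGraph β) {v u : β}
    (h : ∀ w, G.Adj v w → w ≠ u → G.Adj u w) : D F G v u = ∅ := by
  classical
  rw [Finset.eq_empty_iff_forall_notMem]
  intro φ hφ
  rw [mem_D] at hφ
  obtain ⟨hc, hu, a, b, hab, ha, hn⟩ := hφ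
  rw [mem_Cop] at hc
  apply hn
  apply h
  · rw [← ha]; exact hc.2 a b hab
  · exact hu b

lemma lt_of_empty (F : SimpleGraph α) (G : SimpleGraph β) {v u : β}
    (h : ∀ w, G.Adj u w → w ≠ v → G.Adj v w) (h2 : ∃ φ, φ ∈ D F G v u) : I F G u < I F G v := by
  apply I_lt
  rw [D_empty F G h, Finset.card_empty, Finset.card_pos]
  exact h2

lemma card_three [DecidableEq α] [DecidableEq β] (p q r : β) (hpq : p ≠ q) (hpr : p ≠ r) (hqr : q ≠ r)
    (s : Finset (α → β)) (hs : ∀ φ ∈ s, (∃ a, φ a = p) ∧ (∃ a, φ a = q) ∧ (∃ a, φ a = r)) :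
    s.card ≤ Fintype.card α ^ 3 * Fintype.card β ^ (Fintype.card α - 3) := by
  have h1 : s ⊆ (Finset.univ : Finset (α × α × α)).biUnion
      (fun t => s.filter (fun φ => φ t.1 = p ∧ φ t.2.1 = q ∧ φ t.2.2 = r)) := by
    intro φ hφ
    obtain ⟨⟨a, ha⟩, ⟨b, hb⟩, ⟨c, hc⟩⟩ := hs φ hφ
    rw [Finset.mem_biUnion]
    exact ⟨(a, b, c), Finset.mem_univ _, by rw [Finset.mem_filter]; exact ⟨hφ, ha, hb, hc⟩⟩
  refine (Finset.card_le_card h1).trans ?_
  refine (Finset.card_biUnion_le_card_mul _ _ (Fintype.card β ^ (Fintype.card α - 3)) ?_).trans ?_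
  · rintro ⟨x, y, w⟩ -
    dsimp only
    by_cases hd : x ≠ y ∧ x ≠ w ∧ y ≠ w
    · have hcard : ({x, y, w} : Finset α).card = 3 := by
        rw [Finset.card_eq_three]; exact ⟨x, y, w, hd.1, hd.2.1, hd.2.2, rfl⟩
      have h2 : Fintype.card ({c // c ∈ ({x, y, w} : Finset α)ᶜ} → β) =
          Fintype.card β ^ (Fintype.card α - 3) := by
        rw [Fintype.card_fun, Fintype.card_coe, Finset.card_compl, hcard]
      rw [← h2, ← Finset.card_univ]
      refine Finset.card_le_card_of_injOn (fun φ c => φ c.1) (fun _ _ => Finset.mem_coe.mpr (Finset.mem_univ _)) ?_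
      intro φ hφ ψ hψ h
      rw [Finset.mem_coe, Finset.mem_filter] at hφ hψ
      funext c
      by_cases hc : c ∈ ({x, y, w} : Finset α)
      · simp only [Finset.mem_insert, Finset.mem_singleton] at hc
        rcases hc with rfl | rfl | rfl
        · rw [hφ.2.1, hψ.2.1]
        · rw [hφ.2.2.1, hψ.2.2.1]
        · rw [hφ.2.2.2, hψ.2.2.2]
      · exact congrFun h ⟨c, by rw [Finset.mem_compl]; exact hc⟩
    · have h3 : s.filter (fun φ => φ x = p ∧ φ y = q ∧ φ w = r) = ∅ := by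
        rw [Finset.filter_eq_empty_iff]
        rintro φ - ⟨hx, hy, hw⟩
        apply hd
        refine ⟨?_, ?_, ?_⟩
        · rintro rfl; exact hpq (hx.symm.trans hy)
        · rintro rfl; exact hpr (hx.symm.trans hw)
        · rintro rfl; exact hqr (hy.symm.trans hw)
      rw [h3]; simp
  · apply Nat.mul_le_mul_right
    rw [Finset.card_univ, Fintype.card_prod, Fintype.card_prod]
    apply le_of_eq; ring

lemma card_lower [DecidableEq α] (S : α → Finset β) (z f0 : α) (hz : z ≠ f0) (m : ℕ)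
    (h1 : ∀ c, c = z ∨ c = f0 → (S c).card = 1) (h2 : ∀ c, ¬ (c = z ∨ c = f0) → (S c).card = m) :
    (Fintype.piFinset S).card = m ^ (Fintype.card α - 2) := by
  rw [Fintype.card_piFinset]
  have : ∀ c ∈ (Finset.univ : Finset α), (S c).card = if c = z ∨ c = f0 then 1 else m := by
    intro c _
    split_ifs with h
    · exact h1 c h
    · exact h2 c h
  rw [Finset.prod_congr rfl this, Finset.prod_ite, Finset.prod_const_one, one_mul, Finset.prod_const]
  congr 1
  have : Finset.univ.filter (fun c => ¬ (c = z ∨ c = f0)) = ({z, f0} : Finset α)ᶜ := by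
    ext c; simp
  rw [this, Finset.card_compl, Finset.card_pair hz]

/-- the comparison by counting -/
lemma lt_of_count [DecidableEq α] [DecidableEq β] (X Y X2 Z : Finset (α → β)) (T : (α → β) → (α → β))
    (hX : ∀ φ ∈ X, φ ∉ X2 → T φ ∈ Y ∧ T φ ∉ Z) (hT : Set.InjOn T {φ | φ ∈ X ∧ φ ∉ X2})
    (hZ : Z ⊆ Y) (hlt : X2.card < Z.card) : X.card < Y.card := by
  have h1 : X.card ≤ (X \ X2).card + X2.card := by
    have := Finset.card_le_card_sdiff_add_card (s := X) (t := X2)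
    omega
  have h2 : (X \ X2).card ≤ (Y \ Z).card := by
    refine Finset.card_le_card_of_injOn T ?_ ?_
    · intro φ hφ
      rw [Finset.mem_coe, Finset.mem_sdiff] at hφ ⊢
      exact hX φ hφ.1 hφ.2
    · intro φ hφ ψ hψ h
      rw [Finset.mem_coe, Finset.mem_sdiff] at hφ hψ
      exact hT hφ hψ h
  have h3 : (Y \ Z).card + Z.card = Y.card := Finset.card_sdiff_add_card_eq_card hZ
  omega

end general

end H16.FI.Leaf
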