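import Pool.Agent.H16.FI.LeafA

/-! Part L: easy comparisons -/

namespace H16.FI.Leaf

open Function H16.FI

variable {α : Type} [Fintype α] {n : ℕ}

lemma exists_copy (F : SimpleGraph α) (z f0 : α) (hz : ∀ b, F.Adj z b ↔ b = f0)
    (x y : Fin n ⊕ Fin n) (hxy : (LG n).Adj x y) (S : Finset (Fin n)) (hS : Fintype.card α ≤ S.card)
    (hx : ∀ s ∈ S, x ≠ Sum.inl s) (hy : ∀ s ∈ S, y ≠ Sum.inl s ∧ (LG n).Adj y (Sum.inl s)) :
    ∃ φ, φ ∈ Cop F (LG n) ∧ φ z = x ∧ φ f0 = y ∧ ∀ c, c ≠ z → c ≠ f0 → ∃ s ∈ S, φ c = Sum.inl s := by
  classical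
  have hzf : z ≠ f0 := ((hz f0).mpr rfl).ne
  obtain ⟨ι⟩ : Nonempty (α ↪ S) := Function.Embedding.nonempty_of_card_le (by simpa using hS)
  have hiS : ∀ c, (ι c : Fin n) ∈ S := fun c => (ι c).2
  have hinj : ∀ c d, (ι c : Fin n) = ι d → c = d := fun c d h => ι.injective (Subtype.ext h)
  refine ⟨fun c => if c = z then x else if c = f0 then y else Sum.inl (ι c : Fin n), ?_, ?_, ?_, ?_⟩
  · rw [mem_Cop]
    constructor
    · intro c d h
      dsimp only at h
      split_ifs at h with h1 h2 h3 h4 h5 h6 h7 h8
      · rw [h1, h2]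
      · exact absurd h hxy.ne
      · exact absurd h (hx _ (hiS d))
      · exact absurd h.symm hxy.ne
      · rw [h4, h6]
      · exact absurd h (hy _ (hiS d)).1
      · exact absurd h.symm (hx _ (hiS c))
      · exact absurd h.symm (hy _ (hiS c)).1
      · exact hinj _ _ (Sum.inl_injective h)
    · intro a b hab
      by_cases ha : a = z
      · subst ha
        have hb := (hz b).mp hab
        subst hb
        rw [if_pos rfl, if_neg hab.symm.ne, if_pos rfl]
        exact hxy
      · by_cases hb : b = z
        · subst hb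
          have ha' := (hz a).mp hab.symm
          subst ha'
          rw [if_pos rfl, if_neg hab.ne, if_pos rfl]
          exact hxy.symm
        · rw [if_neg ha, if_neg hb]
          by_cases ha' : a = f0
          · rw [if_pos ha', if_neg (fun h => hab.ne (ha'.trans h.symm))]
            exact (hy _ (hiS b)).2
          · rw [if_neg ha']
            by_cases hb' : b = f0
            · rw [if_pos hb']
              exact (hy _ (hiS a)).2.symm
            · rw [if_neg hb', adj_ll]
              intro h
              exact hab.ne (hinj _ _ h)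
  · simp
  · simp [hzf.symm]
  · intro c h1 h2
    exact ⟨ι c, hiS c, by simp [h1, h2]⟩

variable (F : SimpleGraph α) (z f0 : α) (hz : ∀ b, F.Adj z b ↔ b = f0)

include hz

/-- `b_j < b_i` for `1 ≤ i < j ≤ n-2` -/
lemma lt_bb (hn : Fintype.card α + 3 ≤ n) (i j : Fin n) (hi : 1 ≤ i.val) (hij : i.val < j.val)
    (hj : j.val + 1 < n) : I F (LG n) (Sum.inr j) < I F (LG n) (Sum.inr i) := by
  classical
  apply lt_of_empty
  · rintro (t | t) h hne
    · rw [adj_rl] at h ⊢
      rw [Fin.le_def] at h ⊢; omega
    · rw [adj_rr] at h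
      omega
  · obtain ⟨φ, h1, h2, h3, h4⟩ := exists_copy F z f0 hz (Sum.inr i) (Sum.inl i)
      (by simp) (Finset.univ.erase i)
      (by rw [Finset.card_erase_of_mem (Finset.mem_univ _), Finset.card_univ, Fintype.card_fin]; omega)
      (by intro s _; simp) (by
        intro s hs
        rw [Finset.mem_erase] at hs
        refine ⟨fun h => hs.1 (Sum.inl_injective h).symm, ?_⟩
        rw [adj_ll]; exact hs.1.symm)
    refine ⟨φ, ?_⟩
    rw [mem_D]
    refine ⟨h1, ?_, z, f0, (hz f0).mpr rfl, h2, ?_⟩
    · intro a ha
      by_cases haz : a = z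
      · subst haz
        rw [h2] at ha
        have := congrArg Fin.val (Sum.inr_injective ha)
        omega
      · by_cases haf : a = f0
        · subst haf
          rw [h3] at ha
          exact absurd ha (by simp)
        · obtain ⟨s, -, hs⟩ := h4 a haz haf
          rw [hs] at ha
          exact absurd ha (by simp)
    · rw [h3, adj_rl, Fin.le_def]; omega

/-- `b_j < a_0` for `1 ≤ j ≤ n-2` -/
lemma lt_ba (hn : Fintype.card α + 3 ≤ n) (o j : Fin n) (ho : o.val = 0) (hj1 : 1 ≤ j.val)
    (hj : j.val + 1 < n) : I F (LG n) (Sum.inr j) < I F (LG n) (Sum.inl o) := by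
  classical
  apply lt_of_empty
  · rintro (t | t) h hne
    · rw [adj_ll]
      intro h'
      exact hne (by rw [h'])
    · rw [adj_rr] at h
      omega
  · obtain ⟨φ, h1, h2, h3, h4⟩ := exists_copy F z f0 hz (Sum.inr o) (Sum.inl o)
      (by simp) (Finset.univ.erase o)
      (by rw [Finset.card_erase_of_mem (Finset.mem_univ _), Finset.card_univ, Fintype.card_fin]; omega)
      (by intro s _; simp) (by
        intro s hs
        rw [Finset.mem_erase] at hs
        refine ⟨fun h => hs.1 (Sum.inl_injective h).symm, ?_⟩
        rw [adj_ll]; exact hs.1.symm)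
    refine ⟨φ, ?_⟩
    rw [mem_D]
    refine ⟨h1, ?_, f0, z, ((hz f0).mpr rfl).symm, h3, ?_⟩
    · intro a ha
      by_cases haz : a = z
      · subst haz
        rw [h2] at ha
        have := congrArg Fin.val (Sum.inr_injective ha)
        omega
      · by_cases haf : a = f0
        · subst haf
          rw [h3] at ha
          exact absurd ha (by simp)
        · obtain ⟨s, -, hs⟩ := h4 a haz haf
          rw [hs] at ha
          exact absurd ha (by simp)
    · rw [h2, adj_rr]; omega

/-- `a_0 < b_0` -/
lemma lt_ab (hn : Fintype.card α + 3 ≤ n) (o : Fin n) (ho : o.val = 0) :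
    I F (LG n) (Sum.inl o) < I F (LG n) (Sum.inr o) := by
  classical
  apply lt_of_empty
  · rintro (t | t) h hne
    · rw [adj_rl, Fin.le_def]; omega
    · exfalso
      rw [adj_lr, Fin.le_def] at h
      apply hne
      congr 1
      apply Fin.ext; omega
  · obtain ⟨φ, h1, h2, h3, h4⟩ := exists_copy F z f0 hz (Sum.inr ⟨n - 1, by omega⟩) (Sum.inr o)
      (by
        rw [adj_rr]
        refine ⟨?_, Or.inr ⟨ho, ?_⟩⟩
        · intro h
          have := congrArg Fin.val h
          simp only at this
          omega
        · simp only; omega) (Finset.univ.erase o)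
      (by rw [Finset.card_erase_of_mem (Finset.mem_univ _), Finset.card_univ, Fintype.card_fin]; omega)
      (by intro s _; simp) (by
        intro s hs
        rw [Finset.mem_erase] at hs
        refine ⟨by simp, ?_⟩
        rw [adj_rl, Fin.le_def]; omega)
    refine ⟨φ, ?_⟩
    rw [mem_D]
    refine ⟨h1, ?_, f0, z, ((hz f0).mpr rfl).symm, h3, ?_⟩
    · intro a ha
      by_cases haz : a = z
      · subst haz
        rw [h2] at ha
        exact absurd ha (by simp)
      · by_cases haf : a = f0
        · subst haf
          rw [h3] at ha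
          exact absurd ha (by simp)
        · obtain ⟨s, hs', hs⟩ := h4 a haz haf
          rw [hs] at ha
          rw [Finset.mem_erase] at hs'
          exact hs'.1 (Sum.inl_injective ha)
    · rw [h2, adj_lr, Fin.le_def]; simp only; omega

/-- `a_i < a_j` for `i < j` -/
lemma lt_aa (hn : Fintype.card α + 3 ≤ n) (i j : Fin n) (hij : i.val < j.val) :
    I F (LG n) (Sum.inl i) < I F (LG n) (Sum.inl j) := by
  classical
  apply lt_of_empty
  · rintro (t | t) h hne
    · rw [adj_ll]
      intro h'
      exact hne (by rw [h'])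
    · rw [adj_lr, Fin.le_def] at h ⊢; omega
  · obtain ⟨φ, h1, h2, h3, h4⟩ := exists_copy F z f0 hz (Sum.inr j) (Sum.inl j)
      (by simp) ((Finset.univ.erase j).erase i)
      (by
        rw [Finset.card_erase_of_mem, Finset.card_erase_of_mem (Finset.mem_univ _), Finset.card_univ,
          Fintype.card_fin]
        · omega
        · rw [Finset.mem_erase]
          refine ⟨?_, Finset.mem_univ _⟩
          intro h
          have := congrArg Fin.val h
          omega)
      (by intro s _; simp) (by
        intro s hs
        rw [Finset.mem_erase, Finset.mem_erase] at hs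
        refine ⟨fun h => hs.2.1 (Sum.inl_injective h).symm, ?_⟩
        rw [adj_ll]; exact hs.2.1.symm)
    refine ⟨φ, ?_⟩
    rw [mem_D]
    refine ⟨h1, ?_, f0, z, ((hz f0).mpr rfl).symm, h3, ?_⟩
    · intro a ha
      by_cases haz : a = z
      · subst haz
        rw [h2] at ha
        exact absurd ha (by simp)
      · by_cases haf : a = f0
        · subst haf
          rw [h3] at ha
          have := congrArg Fin.val (Sum.inl_injective ha)
          omega
        · obtain ⟨s, hs', hs⟩ := h4 a haz haf
          rw [hs] at ha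
          rw [Finset.mem_erase] at hs'
          exact hs'.1 (Sum.inl_injective ha)
    · rw [h2, adj_lr, Fin.le_def]; omega

end H16.FI.Leaf
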