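import Pool.Agent.H16.FI.LeafB

/-! Part L: the two comparisons by counting -/

namespace H16.FI.Leaf

open Function H16.FI

variable {α : Type} [Fintype α] {n : ℕ}

/-- parameters: `n = 2 k m + 8` -/
structure Par (α : Type) [Fintype α] (n m : ℕ) : Prop where
  hn : n = 2 * (Fintype.card α * m) + 8
  hm : 0 < m

noncomputable def idx (c : α) : ℕ := (Fintype.equivFin α c).val

lemma idx_lt (c : α) : idx c < Fintype.card α := (Fintype.equivFin α c).isLt

lemma idx_inj {c d : α} (h : idx c = idx d) : c = d :=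
  (Fintype.equivFin α).injective (Fin.ext h)

lemma blk_lt {m : ℕ} (c : α) {t : ℕ} (ht : t < m) : idx c * m + t < Fintype.card α * m := by
  have h1 := idx_lt c
  have h2 : (idx c + 1) * m ≤ Fintype.card α * m := Nat.mul_le_mul_right m h1
  have h3 : (idx c + 1) * m = idx c * m + m := by ring
  omega

lemma blk_inj {m : ℕ} {c d : α} {t s : ℕ} (ht : t < m) (hs : s < m)
    (h : idx c * m + t = idx d * m + s) : c = d := by
  apply idx_inj
  by_contra hne
  rcases Nat.lt_or_gt_of_ne hne with h1 | h1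
  · have h2 : (idx c + 1) * m ≤ idx d * m := Nat.mul_le_mul_right m h1
    have h3 : (idx c + 1) * m = idx c * m + m := by ring
    omega
  · have h2 : (idx d + 1) * m ≤ idx c * m := Nat.mul_le_mul_right m h1
    have h3 : (idx d + 1) * m = idx d * m + m := by ring
    omega

variable {m : ℕ}

/-- high block of `a`'s -/
noncomputable def hiA (hp : Par α n m) (c : α) : Finset (Fin n ⊕ Fin n) := by
  classical
  exact Finset.univ.image (fun t : Fin m => Sum.inl ⟨Fintype.card α * m + 3 + (idx c * m + t.val), by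
    have := blk_lt c t.isLt
    have := hp.hn
    omega⟩)

/-- low block of `b`'s -/
noncomputable def loB (hp : Par α n m) (c : α) : Finset (Fin n ⊕ Fin n) := by
  classical
  exact Finset.univ.image (fun t : Fin m => Sum.inr ⟨2 + (idx c * m + t.val), by
    have := blk_lt c t.isLt
    have := hp.hn
    omega⟩)

lemma mem_hiA (hp : Par α n m) {c : α} {x : Fin n ⊕ Fin n} (h : x ∈ hiA hp c) :
    ∃ (i : Fin n) (t : ℕ), x = Sum.inl i ∧ t < m ∧ i.val = Fintype.card α * m + 3 + (idx c * m + t) := by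
  classical
  unfold hiA at h
  rw [Finset.mem_image] at h
  obtain ⟨t, -, rfl⟩ := h
  exact ⟨_, t.val, rfl, t.isLt, rfl⟩

lemma mem_loB (hp : Par α n m) {c : α} {x : Fin n ⊕ Fin n} (h : x ∈ loB hp c) :
    ∃ (i : Fin n) (t : ℕ), x = Sum.inr i ∧ t < m ∧ i.val = 2 + (idx c * m + t) := by
  classical
  unfold loB at h
  rw [Finset.mem_image] at h
  obtain ⟨t, -, rfl⟩ := h
  exact ⟨_, t.val, rfl, t.isLt, rfl⟩

lemma card_hiA (hp : Par α n m) (c : α) : (hiA hp c).card = m := by
  classical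
  unfold hiA
  rw [Finset.card_image_of_injective, Finset.card_univ, Fintype.card_fin]
  intro t s h
  have := congrArg Fin.val (Sum.inl_injective h)
  simp only at this
  apply Fin.ext; omega

lemma card_loB (hp : Par α n m) (c : α) : (loB hp c).card = m := by
  classical
  unfold loB
  rw [Finset.card_image_of_injective, Finset.card_univ, Fintype.card_fin]
  intro t s h
  have := congrArg Fin.val (Sum.inr_injective h)
  simp only at this
  apply Fin.ext; omega

/-- relabelling: `p → p'`, `q → q'` -/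
noncomputable def sg {β : Type} (p q p' q' : β) (x : β) : β := by
  classical
  exact if x = p then p' else if x = q then q' else x

lemma sg_p {β : Type} (p q p' q' : β) : sg p q p' q' p = p' := by simp [sg]
lemma sg_q {β : Type} {p q : β} (p' q' : β) (h : q ≠ p) : sg p q p' q' q = q' := by simp [sg, h]
lemma sg_o {β : Type} {p q : β} (p' q' : β) {x : β} (h1 : x ≠ p) (h2 : x ≠ q) : sg p q p' q' x = x := by
  simp [sg, h1, h2]

lemma sg_inj {β : Type} {p q p' q' : β} (h : p' ≠ q') {x y : β}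
    (hx1 : x ≠ p') (hx2 : x ≠ q') (hy1 : y ≠ p') (hy2 : y ≠ q')
    (hxy : sg p q p' q' x = sg p q p' q' y) : x = y := by
  unfold sg at hxy
  split_ifs at hxy with h1 h2 h3 h4 h5 h6
  · rw [h1, h2]
  · exact absurd hxy h
  · exact absurd hxy.symm hy1
  · exact absurd hxy.symm h
  · rw [h4, h6]
  · exact absurd hxy.symm hy2
  · exact absurd hxy hx1
  · exact absurd hxy hx2
  · exact hxy

lemma sg_cases {β : Type} {p q p' q' x y : β} (h : sg p q p' q' x = y) :
    (x = p ∧ y = p') ∨ (x = q ∧ y = q') ∨ x = y := by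
  unfold sg at h
  split_ifs at h with h1 h2
  · exact Or.inl ⟨h1, h.symm⟩
  · exact Or.inr (Or.inl ⟨h2, h.symm⟩)
  · exact Or.inr (Or.inr h)

/-- relabelled copies are copies -/
lemma sg_cop (F : SimpleGraph α) {β : Type} [Fintype β] (G : SimpleGraph β) {p q p' q' : β} (h : p' ≠ q')
    (hadj : ∀ x y, x ≠ p' → x ≠ q' → y ≠ p' → y ≠ q' → G.Adj x y → G.Adj (sg p q p' q' x) (sg p q p' q' y))
    {φ : α → β} (hφ : φ ∈ Cop F G) (h1 : ∀ a, φ a ≠ p') (h2 : ∀ a, φ a ≠ q') :
    (fun a => sg p q p' q' (φ a)) ∈ Cop F G := by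
  rw [mem_Cop] at hφ ⊢
  refine ⟨fun a b hab => hφ.1 (sg_inj h (h1 a) (h2 a) (h1 b) (h2 b) hab), fun a b hab => ?_⟩
  exact hadj _ _ (h1 a) (h2 a) (h1 b) (h2 b) (hφ.2 a b hab)

/-- the abstract counting comparison -/
lemma count_cmp [DecidableEq α] (F : SimpleGraph α) {β : Type} [Fintype β] (G : SimpleGraph β) {u v w p : β} {z f0 : α}
    (hzf : z ≠ f0) (S : α → Finset β) (m : ℕ)
    (hvw : v ≠ w)
    -- `X = D u v`, copies use the edge `u - p`; relabel `u → v`, `p → w`
    (hup : u ≠ p) (huw : u ≠ w) (hpw : p ≠ w)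
    (hX : ∀ φ ∈ D F G u v, ∃ a b, F.Adj a b ∧ φ a = u ∧ φ b = p)
    (hadj : ∀ x y, x ≠ v → x ≠ w → y ≠ v → y ≠ w → G.Adj x y → G.Adj (sg u p v w x) (sg u p v w y))
    (huv : u ≠ v) (hn : ¬ G.Adj u w)
    (hZ : ∀ φ ∈ Fintype.piFinset S, φ ∈ D F G v u)
    (hTZ : ∀ φ ∈ Cop F G, (∀ a, φ a ≠ v) → (∀ a, φ a ≠ w) →
      (fun a => sg u p v w (φ a)) ∉ Fintype.piFinset S)
    (h1 : ∀ c, c = z ∨ c = f0 → (S c).card = 1) (h2 : ∀ c, ¬ (c = z ∨ c = f0) → (S c).card = m)
    (hlt : Fintype.card α ^ 3 * Fintype.card β ^ (Fintype.card α - 3) < m ^ (Fintype.card α - 2)) :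
    I F G u < I F G v := by
  classical
  apply I_lt
  refine lt_of_count (D F G u v) (D F G v u) ((D F G u v).filter (fun φ => ∃ a, φ a = w))
    (Fintype.piFinset S) (fun φ a => sg u p v w (φ a)) ?_ ?_ ?_ ?_
  · intro φ hφ hw
    have hw' : ∀ a, φ a ≠ w := by
      intro a ha
      exact hw (Finset.mem_filter.mpr ⟨hφ, a, ha⟩)
    obtain ⟨a, b, hab, ha, hb⟩ := hX φ hφ
    rw [mem_D] at hφ
    refine ⟨?_, hTZ φ hφ.1 hφ.2.1 hw'⟩
    rw [mem_D]
    refine ⟨sg_cop F G hvw hadj hφ.1 hφ.2.1 hw', ?_, a, b, hab, ?_, ?_⟩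
    · intro c hc
      by_cases hcu : φ c = u
      · rw [hcu, sg_p] at hc
        exact huv hc.symm
      · by_cases hcp : φ c = p
        · rw [hcp, sg_q _ _ hup.symm] at hc
          exact huw hc.symm
        · rw [sg_o _ _ hcu hcp] at hc
          exact hcu hc
    · rw [ha, sg_p]
    · rw [hb, sg_q _ _ hup.symm]; exact hn
  · intro φ hφ ψ hψ h
    simp only [Set.mem_ofPred_eq, Finset.mem_filter, not_and, not_exists] at hφ hψ
    have h1 := (mem_D.mp hφ.1).2.1
    have h2 := (mem_D.mp hψ.1).2.1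
    funext a
    exact sg_inj hvw (h1 a) (hφ.2 hφ.1 a) (h2 a) (hψ.2 hψ.1 a) (congrFun h a)
  · intro φ hφ
    exact hZ φ hφ
  · rw [card_lower S z f0 hzf m h1 h2]
    refine lt_of_le_of_lt (card_three u p w hup huw hpw _ ?_) hlt
    intro φ hφ
    rw [Finset.mem_filter] at hφ
    obtain ⟨a, b, hab, ha, hb⟩ := hX φ hφ.1
    exact ⟨⟨a, ha⟩, ⟨b, hb⟩, hφ.2⟩

end H16.FI.Leaf
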