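import Pool.Agent.H16.FI.Defs

/-! Part R: counting subgraphs isomorphic to `F` versus labelled copies -/

namespace H16.FI

open Function

variable {α β : Type} [Fintype α] [Fintype β]

/-- the `F`-degree: number of subgraphs of `G` isomorphic to `F` which contain `v` -/
noncomputable def fdeg (F : SimpleGraph α) (G : SimpleGraph β) (v : β) : ℕ :=
  Set.ncard {H : G.Subgraph | v ∈ H.verts ∧ Nonempty (F ≃g H.coe)}

/-- image subgraph of a map -/
def img (F : SimpleGraph α) (G : SimpleGraph β) (φ : α → β) : G.Subgraph where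
  verts := Set.range φ
  Adj x y := G.Adj x y ∧ ∃ a b, F.Adj a b ∧ φ a = x ∧ φ b = y
  adj_sub h := h.1
  edge_vert := by
    rintro x y ⟨-, a, b, -, rfl, -⟩
    exact ⟨a, rfl⟩
  symm := ⟨by
    rintro x y ⟨h, a, b, hab, ha, hb⟩
    exact ⟨h.symm, b, a, hab.symm, hb, ha⟩⟩

lemma fib_verts {F : SimpleGraph α} {G : SimpleGraph β} {φ : α → β} {H : G.Subgraph}
    (h : img F G φ = H) : H.verts = Set.range φ := by
  subst h; rfl

lemma fib_adj {F : SimpleGraph α} {G : SimpleGraph β} {φ : α → β} {H : G.Subgraph}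
    (h : img F G φ = H) (x y : β) :
    H.Adj x y ↔ G.Adj x y ∧ ∃ a b, F.Adj a b ∧ φ a = x ∧ φ b = y := by
  subst h; rfl

/-- maps with image `H` are isomorphisms onto `H` -/
noncomputable def fibEquiv (F : SimpleGraph α) (G : SimpleGraph β) (H : G.Subgraph) :
    {φ : α → β // φ ∈ Cop F G ∧ img F G φ = H} ≃ (F ≃g H.coe) where
  toFun p :=
    { toEquiv := Equiv.ofBijective
        (fun a => (⟨p.1 a, by rw [fib_verts p.2.2]; exact ⟨a, rfl⟩⟩ : H.verts)) (by
          constructor
          · intro a b h
            exact (mem_Cop.mp p.2.1).1 (congrArg Subtype.val h)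
          · rintro ⟨x, hx⟩
            have hx' := hx
            rw [fib_verts p.2.2] at hx'
            obtain ⟨a, ha⟩ := hx'
            exact ⟨a, Subtype.ext ha⟩)
      map_rel_iff' := by
        intro a b
        show H.Adj (p.1 a) (p.1 b) ↔ F.Adj a b
        rw [fib_adj p.2.2]
        constructor
        · rintro ⟨-, a', b', hab, ha, hb⟩
          have h1 := (mem_Cop.mp p.2.1).1 ha
          have h2 := (mem_Cop.mp p.2.1).1 hb
          rw [← h1, ← h2]; exact hab
        · intro hab
          exact ⟨(mem_Cop.mp p.2.1).2 a b hab, a, b, hab, rfl, rfl⟩ }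
  invFun e := ⟨fun a => (e a : β), by
    constructor
    · rw [mem_Cop]
      constructor
      · intro a b h
        exact e.injective (Subtype.ext h)
      · intro a b hab
        exact H.adj_sub ((e.map_rel_iff (a := a) (b := b)).mpr hab)
    · apply SimpleGraph.Subgraph.ext
      · ext x
        constructor
        · rintro ⟨a, rfl⟩
          exact (e a).2
        · intro hx
          obtain ⟨a, ha⟩ := e.surjective ⟨x, hx⟩
          exact ⟨a, congrArg Subtype.val ha⟩
      · funext x y
        apply propext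
        constructor
        · rintro ⟨-, a, b, hab, rfl, rfl⟩
          exact (e.map_rel_iff (a := a) (b := b)).mpr hab
        · intro h
          refine ⟨H.adj_sub h, ?_⟩
          obtain ⟨a, ha⟩ := e.surjective ⟨x, H.edge_vert h⟩
          obtain ⟨b, hb⟩ := e.surjective ⟨y, H.edge_vert h.symm⟩
          refine ⟨a, b, ?_, congrArg Subtype.val ha, congrArg Subtype.val hb⟩
          apply (e.map_rel_iff (a := a) (b := b)).mp
          show H.Adj (e a) (e b)
          rw [ha, hb]; exact h⟩
  left_inv p := by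
    apply Subtype.ext
    rfl
  right_inv e := by
    apply RelIso.ext
    intro a
    rfl

/-- composition with a fixed isomorphism -/
def compEquiv {γ : Type} {F : SimpleGraph α} {H : SimpleGraph γ} (e : F ≃g H) : (F ≃g F) ≃ (F ≃g H) where
  toFun f := f.trans e
  invFun g := g.trans e.symm
  left_inv f := by ext a; simp
  right_inv g := by ext a; simp

theorem I_eq (F : SimpleGraph α) (G : SimpleGraph β) (v : β) :
    I F G v = Nat.card (F ≃g F) * fdeg F G v := by
  classical
  have hfin : ({H : G.Subgraph | v ∈ H.verts ∧ Nonempty (F ≃g H.coe)}).Finite := Set.toFinite _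
  have hc : ∀ H : G.Subgraph, (v ∈ H.verts ∧ Nonempty (F ≃g H.coe)) →
      (((Cop F G).filter (fun φ => ∃ a, φ a = v)).filter (fun φ => img F G φ = H)).card =
        Nat.card (F ≃g F) := by
    rintro H ⟨hv, ⟨e⟩⟩
    rw [Nat.card_congr (compEquiv e), ← Nat.card_congr (fibEquiv F G H)]
    have h0 := Nat.card_eq_card_finite_toFinset
      (Set.toFinite {φ : α → β | φ ∈ Cop F G ∧ img F G φ = H})
    refine Eq.trans ?_ h0.symm
    congr 1
    ext φ
    rw [Set.Finite.mem_toFinset]
    simp only [Finset.mem_filter, Set.mem_setOf_eq]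
    constructor
    · rintro ⟨⟨h1, -⟩, h2⟩
      exact ⟨h1, h2⟩
    · rintro ⟨h1, h2⟩
      rw [fib_verts h2] at hv
      exact ⟨⟨h1, hv⟩, h2⟩
  unfold I fdeg
  rw [Set.ncard_eq_toFinset_card _ hfin]
  rw [Finset.card_eq_sum_card_fiberwise (f := img F G) (t := hfin.toFinset)]
  · rw [Finset.sum_const_nat (m := Nat.card (F ≃g F))]
    · ring
    · intro H hH
      rw [Set.Finite.mem_toFinset] at hH
      exact hc H hH
  · intro φ hφ
    simp only [Finset.coe_filter, Set.mem_setOf_eq] at hφ
    rw [Set.Finite.coe_toFinset]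
    obtain ⟨a, ha⟩ := hφ.2
    exact ⟨⟨a, ha⟩, ⟨fibEquiv F G (img F G φ) ⟨φ, hφ.1, rfl⟩⟩⟩

theorem fdeg_ne (F : SimpleGraph α) (G : SimpleGraph β) {u v : β}
    (h : I F G u ≠ I F G v) : fdeg F G u ≠ fdeg F G v := by
  intro h'
  exact h (by rw [I_eq, I_eq, h'])

end H16.FI
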